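import Mathlib

set_option autoImplicit false
set_option linter.unusedSectionVars false

namespace Pool.Agent.Helper629.BAC

open scoped Topology
open Filter

/-- Bounded approximate contractibility tested on unital bimodules. -/
def UBAC (A : Type) [NormedRing A] [NormedAlgebra ℂ A] : Prop :=
  ∀ (X : Type) [NormedAddCommGroup X] [NormedSpace ℂ X] [CompleteSpace X]
    (L R : A →L[ℂ] X →L[ℂ] X),
    (∀ x, L 1 x = x) → (∀ x, R 1 x = x) →
    (∀ a b : A, L (a * b) = (L a).comp (L b)) →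
    (∀ a b : A, R (a * b) = (R b).comp (R a)) →
    (∀ a b : A, (L a).comp (R b) = (R b).comp (L a)) →
    ∀ D : A →L[ℂ] X, (∀ a b : A, D (a * b) = L a (D b) + R b (D a)) →
      ∃ C : ℝ, ∀ F : Finset A, ∀ ε : ℝ, 0 < ε → ∃ ξ : X,
        (∀ a : A, ‖L a ξ - R a ξ‖ ≤ C * ‖a‖) ∧
          ∀ a ∈ F, ‖D a - (L a ξ - R a ξ)‖ < ε

section basic

/-- the dual space, as a type of its own -/
def Du (A : Type) [NormedRing A] [NormedAlgebra ℂ A] : Type := A →L[ℂ] ℂ

variable {A : Type} [NormedRing A] [NormedAlgebra ℂ A]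

noncomputable instance : NormedAddCommGroup (Du A) :=
  inferInstanceAs (NormedAddCommGroup (A →L[ℂ] ℂ))
noncomputable instance : NormedSpace ℂ (Du A) :=
  inferInstanceAs (NormedSpace ℂ (A →L[ℂ] ℂ))
noncomputable instance : FunLike (Du A) A ℂ := inferInstanceAs (FunLike (A →L[ℂ] ℂ) A ℂ)
instance : ContinuousLinearMapClass (Du A) ℂ A ℂ :=
  inferInstanceAs (ContinuousLinearMapClass (A →L[ℂ] ℂ) ℂ A ℂ)

@[simp] lemma Du.add_apply (f g : Du A) (a : A) : (f + g) a = f a + g a := rfl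
@[simp] lemma Du.sub_apply (f g : Du A) (a : A) : (f - g) a = f a - g a := rfl
@[simp] lemma Du.smul_apply (c : ℂ) (f : Du A) (a : A) : (c • f) a = c * f a := rfl
@[simp] lemma Du.zero_apply (a : A) : (0 : Du A) a = 0 := rfl

lemma Du.le_norm (f : Du A) (a : A) : ‖f a‖ ≤ ‖f‖ * ‖a‖ := ContinuousLinearMap.le_opNorm f a

lemma Du.norm_le (f : Du A) (C : ℝ) (hC : 0 ≤ C) (h : ∀ a, ‖f a‖ ≤ C * ‖a‖) : ‖f‖ ≤ C :=
  ContinuousLinearMap.opNorm_le_bound f hC h

@[ext] lemma Du.ext {f g : Du A} (h : ∀ a, f a = g a) : f = g :=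
  ContinuousLinearMap.ext h

/-- make a dual vector from a linear map with a bound -/
noncomputable def Du.mk (f : A →ₗ[ℂ] ℂ) (C : ℝ) (h : ∀ a, ‖f a‖ ≤ C * ‖a‖) : Du A :=
  LinearMap.mkContinuous f C h

/-- evaluation -/
noncomputable def ev (a : A) : Du A →L[ℂ] ℂ :=
  LinearMap.mkContinuous { toFun := fun f => f a, map_add' := fun f g => rfl,
                           map_smul' := fun c f => rfl } ‖a‖
    (fun f => by
      change ‖f a‖ ≤ _
      rw [mul_comm]; exact Du.le_norm f a)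

@[simp] lemma ev_apply (a : A) (f : Du A) : ev a f = f a := rfl

/-- `la a f = (b ↦ f (b * a))`. -/
noncomputable def la : A →L[ℂ] Du A →L[ℂ] Du A :=
  (ContinuousLinearMap.compL ℂ A A ℂ).flip.comp (ContinuousLinearMap.mul ℂ A).flip

@[simp] lemma la_apply (a : A) (f : Du A) (b : A) : la a f b = f (b * a) := rfl

lemma la_mul (a b : A) (f : Du A) : la (a * b) f = la a (la b f) := by
  ext c; simp [mul_assoc]

lemma la_norm (a : A) (f : Du A) : ‖la a f‖ ≤ ‖a‖ * ‖f‖ := by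
  refine Du.norm_le _ _ (by positivity) fun b => ?_
  rw [la_apply]
  calc ‖f (b * a)‖ ≤ ‖f‖ * ‖b * a‖ := Du.le_norm _ _
    _ ≤ ‖f‖ * (‖b‖ * ‖a‖) := by gcongr; exact norm_mul_le _ _
    _ = ‖a‖ * ‖f‖ * ‖b‖ := by ring

/-- the operators from the dual space to the algebra -/
def EE (A : Type) [NormedRing A] [NormedAlgebra ℂ A] : Type := Du A →L[ℂ] A

noncomputable instance : NormedAddCommGroup (EE A) :=
  inferInstanceAs (NormedAddCommGroup (Du A →L[ℂ] A))
noncomputable instance : NormedSpace ℂ (EE A) :=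
  inferInstanceAs (NormedSpace ℂ (Du A →L[ℂ] A))
noncomputable instance : FunLike (EE A) (Du A) A := inferInstanceAs (FunLike (Du A →L[ℂ] A) (Du A) A)
instance : ContinuousLinearMapClass (EE A) ℂ (Du A) A :=
  inferInstanceAs (ContinuousLinearMapClass (Du A →L[ℂ] A) ℂ (Du A) A)
instance [CompleteSpace A] : CompleteSpace (EE A) :=
  inferInstanceAs (CompleteSpace (Du A →L[ℂ] A))

@[simp] lemma EE.add_apply (S T : EE A) (f : Du A) : (S + T) f = S f + T f := rfl
@[simp] lemma EE.sub_apply (S T : EE A) (f : Du A) : (S - T) f = S f - T f := rfl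
@[simp] lemma EE.smul_apply (c : ℂ) (T : EE A) (f : Du A) : (c • T) f = c • T f := rfl
@[simp] lemma EE.zero_apply (f : Du A) : (0 : EE A) f = 0 := rfl

lemma EE.le_norm (T : EE A) (f : Du A) : ‖T f‖ ≤ ‖T‖ * ‖f‖ := ContinuousLinearMap.le_opNorm T f

@[ext] lemma EE.ext {S T : EE A} (h : ∀ f, S f = T f) : S = T :=
  ContinuousLinearMap.ext h

noncomputable def LE : A →L[ℂ] EE A →L[ℂ] EE A :=
  (ContinuousLinearMap.compL ℂ (Du A) A A).comp (ContinuousLinearMap.mul ℂ A)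

noncomputable def RE : A →L[ℂ] EE A →L[ℂ] EE A :=
  ((ContinuousLinearMap.compL ℂ (Du A) (Du A) A).flip).comp la

@[simp] lemma LE_apply (a : A) (T : EE A) (f : Du A) : LE a T f = a * T f := rfl
@[simp] lemma RE_apply (a : A) (T : EE A) (f : Du A) : RE a T f = T (la a f) := rfl

lemma LE_mul (a b : A) (T : EE A) : LE (a * b) T = LE a (LE b T) := by
  ext f; simp [mul_assoc]

lemma RE_mul (a b : A) (T : EE A) : RE (a * b) T = RE b (RE a T) := by
  ext f; simp [la_mul]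

lemma LE_RE (a b : A) (T : EE A) : LE a (RE b T) = RE b (LE a T) := by
  ext f; simp

/-- restriction of a bilinear action to an invariant submodule -/
noncomputable def restr (X : Submodule ℂ (EE A)) (M : A →L[ℂ] EE A →L[ℂ] EE A)
    (hM : ∀ a, ∀ T ∈ X, M a T ∈ X) : A →L[ℂ] X →L[ℂ] X :=
  LinearMap.mkContinuous₂
    (LinearMap.mk₂ ℂ (fun (a : A) (T : X) => (⟨M a T, hM a T T.2⟩ : X))
      (by intro a b T; ext1; simp) (by intro c a T; ext1; simp)
      (by intro a S T; ext1; simp) (by intro c a T; ext1; simp)) ‖M‖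
    (by
      intro a T
      simpa using M.le_opNorm₂ a (T : EE A))

lemma restr_apply (X : Submodule ℂ (EE A)) (M : A →L[ℂ] EE A →L[ℂ] EE A)
    (hM : ∀ a, ∀ T ∈ X, M a T ∈ X) (a : A) (T : X) :
    ((restr X M hM a T : X) : EE A) = M a T := rfl

end basic

section net

variable {A : Type} [NormedRing A] [NormedAlgebra ℂ A] [CompleteSpace A]

lemma exists_net (h : UBAC A) (X : Submodule ℂ (EE A)) (hX : IsClosed (X : Set (EE A)))
    (hL : ∀ a, ∀ T ∈ X, LE a T ∈ X) (hR : ∀ a, ∀ T ∈ X, RE a T ∈ X)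
    (t : EE A) (ht : ∀ a, LE a t - RE a t ∈ X) :
    ∃ K : ℝ, 0 ≤ K ∧ ∀ F : Finset A, ∀ ε : ℝ, 0 < ε → ∃ u : EE A, t - u ∈ X ∧
      (∀ a, ‖LE a u - RE a u‖ ≤ K * ‖a‖) ∧ ∀ a ∈ F, ‖LE a u - RE a u‖ < ε := by
  have : CompleteSpace X := hX.completeSpace_coe
  let D : A →L[ℂ] X := LinearMap.mkContinuous
    { toFun := fun a => (⟨LE a t - RE a t, ht a⟩ : X)
      map_add' := by
        intro a b; ext1
        simp only [map_add, _root_.add_apply, Submodule.coe_add]
        abel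
      map_smul' := by
        intro c a; ext1
        simp only [map_smul, _root_.smul_apply, Submodule.coe_smul, smul_sub,
          RingHom.id_apply] }
    ((‖(LE : A →L[ℂ] EE A →L[ℂ] EE A)‖ + ‖(RE : A →L[ℂ] EE A →L[ℂ] EE A)‖) * ‖t‖)
    (by
      intro a
      change ‖LE a t - RE a t‖ ≤ _
      calc ‖LE a t - RE a t‖ ≤ ‖LE a t‖ + ‖RE a t‖ := norm_sub_le _ _
        _ ≤ ‖(LE : A →L[ℂ] EE A →L[ℂ] EE A)‖ * ‖a‖ * ‖t‖
            + ‖(RE : A →L[ℂ] EE A →L[ℂ] EE A)‖ * ‖a‖ * ‖t‖ :=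
          add_le_add ((LE : A →L[ℂ] EE A →L[ℂ] EE A).le_opNorm₂ a t)
            ((RE : A →L[ℂ] EE A →L[ℂ] EE A).le_opNorm₂ a t)
        _ = _ := by ring)
  have hD : ∀ a, ((D a : X) : EE A) = LE a t - RE a t := fun a => rfl
  obtain ⟨C, hC⟩ := h X (restr X LE hL) (restr X RE hR)
    (by intro x; ext1; rw [restr_apply]; ext f; simp)
    (by
      intro x; ext1; rw [restr_apply]; ext f; simp only [RE_apply]
      congr 1; ext b; simp)
    (by
      intro a b; ext1 x; ext1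
      simp only [ContinuousLinearMap.comp_apply, restr_apply]; exact LE_mul a b _)
    (by
      intro a b; ext1 x; ext1
      simp only [ContinuousLinearMap.comp_apply, restr_apply]; exact RE_mul a b _)
    (by
      intro a b; ext1 x; ext1
      simp only [ContinuousLinearMap.comp_apply, restr_apply]; exact LE_RE a b _)
    D
    (by
      intro a b; ext1
      simp only [Submodule.coe_add, restr_apply, hD, map_sub]
      rw [LE_mul, RE_mul, LE_RE]; abel)
  refine ⟨‖D‖ + |C|, by positivity, fun F ε hε => ?_⟩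
  obtain ⟨ξ, h1, h2⟩ := hC F ε hε
  have key : ∀ a, LE a (t - (ξ : EE A)) - RE a (t - (ξ : EE A))
      = ((D a - (restr X LE hL a ξ - restr X RE hR a ξ) : X) : EE A) := by
    intro a
    simp only [Submodule.coe_sub, restr_apply, hD, map_sub]
    abel
  refine ⟨t - ξ, by simp, fun a => ?_, fun a ha => ?_⟩
  · rw [key a]
    calc ‖((D a - (restr X LE hL a ξ - restr X RE hR a ξ) : X) : EE A)‖
        = ‖D a - (restr X LE hL a ξ - restr X RE hR a ξ)‖ := rfl
      _ ≤ ‖D a‖ + ‖restr X LE hL a ξ - restr X RE hR a ξ‖ := norm_sub_le _ _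
      _ ≤ ‖D‖ * ‖a‖ + C * ‖a‖ := add_le_add (D.le_opNorm a) (h1 a)
      _ ≤ ‖D‖ * ‖a‖ + |C| * ‖a‖ := by gcongr; exact le_abs_self C
      _ = _ := by ring
  · rw [key a]; exact h2 a ha

end net

section ideal

variable {A : Type} [NormedRing A] [NormedAlgebra ℂ A]

/-- a coordinate system for the quotient by `J` -/
structure Dat (J : Submodule ℂ A) where
  n : ℕ
  c : Fin n → A
  F : Fin n → Du A
  hF : ∀ k, ∀ x ∈ J, F k x = 0
  hc : ∀ a, a - ∑ k, F k a • c k ∈ J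
  hFc : ∀ k l, F k (c l) = if k = l then 1 else 0

lemma exists_dat (J : Submodule ℂ A) (hcl : IsClosed (J : Set A))
    (hfd : FiniteDimensional ℂ (A ⧸ J)) : Nonempty (Dat J) := by
  have : IsClosed (J : Set A) := hcl
  let b := Module.finBasis ℂ (A ⧸ J)
  have hs : ∀ k, ∃ x : A, (Submodule.Quotient.mk x : A ⧸ J) = b k := fun k =>
    Submodule.Quotient.mk_surjective J (b k)
  choose c hc using hs
  let G : Fin _ → ((A ⧸ J) →L[ℂ] ℂ) := fun k => LinearMap.toContinuousLinearMap (b.coord k)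
  let F : Fin _ → Du A := fun k =>
    Du.mk ((b.coord k).comp J.mkQ) ‖G k‖ (by
      intro a
      have h1 : ‖G k (Submodule.Quotient.mk a : A ⧸ J)‖
          ≤ ‖G k‖ * ‖(Submodule.Quotient.mk a : A ⧸ J)‖ := (G k).le_opNorm _
      have h2 : ‖(Submodule.Quotient.mk a : A ⧸ J)‖ ≤ ‖a‖ := Submodule.Quotient.norm_mk_le J a
      calc ‖((b.coord k).comp J.mkQ) a‖ = ‖G k (Submodule.Quotient.mk a : A ⧸ J)‖ := rfl
        _ ≤ ‖G k‖ * ‖(Submodule.Quotient.mk a : A ⧸ J)‖ := h1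
        _ ≤ ‖G k‖ * ‖a‖ := by gcongr)
  have hFd : ∀ k a, F k a = b.repr (Submodule.Quotient.mk a : A ⧸ J) k := fun k a => rfl
  refine ⟨⟨_, c, F, ?_, ?_, ?_⟩⟩
  · intro k x hx
    rw [hFd, (Submodule.Quotient.mk_eq_zero J).2 hx]; simp
  · intro a
    rw [← Submodule.Quotient.mk_eq_zero J]
    rw [Submodule.Quotient.mk_sub]
    have : (Submodule.Quotient.mk (∑ k, F k a • c k) : A ⧸ J)
        = ∑ k, F k a • (Submodule.Quotient.mk (c k) : A ⧸ J) := by
      change J.mkQ _ = _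
      simp only [map_sum, map_smul, Submodule.mkQ_apply]
    rw [this]
    simp only [hc, hFd]
    rw [b.sum_repr]; simp
  · intro k l
    rw [hFd, hc, b.repr_self, Finsupp.single_apply]
    simp [eq_comm]

/-- evaluation of operators at a functional -/
noncomputable def evE (f : Du A) : EE A →L[ℂ] A :=
  LinearMap.mkContinuous { toFun := fun T => T f, map_add' := fun S T => rfl,
                           map_smul' := fun c T => rfl } ‖f‖
    (fun T => by
      change ‖T f‖ ≤ _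
      rw [mul_comm]; exact EE.le_norm T f)

@[simp] lemma evE_apply (f : Du A) (T : EE A) : evE f T = T f := rfl

/-- rank one operators -/
noncomputable def rk (x y : A) : EE A :=
  (ContinuousLinearMap.smulRight (ev y) x : Du A →L[ℂ] A)

@[simp] lemma rk_apply (x y : A) (f : Du A) : rk x y f = f y • x := rfl

variable {J : Submodule ℂ A} (d : Dat J)

/-- the contraction map -/
noncomputable def Dat.Psi : EE A →L[ℂ] A :=
  ∑ k, ((ContinuousLinearMap.mul ℂ A).flip (d.c k)).comp (evE (d.F k))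

lemma Dat.Psi_apply (T : EE A) : d.Psi T = ∑ k, T (d.F k) * d.c k := by
  simp [Dat.Psi]

lemma Dat.mem_iff (x : A) : x ∈ J ↔ ∀ k, d.F k x = 0 := by
  constructor
  · intro hx k; exact d.hF k x hx
  · intro h
    have := d.hc x
    simpa [h] using this

lemma Dat.expand {f : Du A} (hf : ∀ x ∈ J, f x = 0) : f = ∑ k, f (d.c k) • d.F k := by
  ext a
  have h1 := hf _ (d.hc a)
  rw [map_sub, map_sum, sub_eq_zero] at h1
  rw [h1]
  have : ∀ s : Finset (Fin d.n), (∑ k ∈ s, f (d.c k) • d.F k) a = ∑ k ∈ s, f (d.c k) * d.F k a := by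
    intro s
    exact map_sum ({ toFun := fun g : Du A => g a, map_zero' := rfl, map_add' := fun _ _ => rfl } :
      Du A →+ ℂ) _ s
  rw [this]
  refine Finset.sum_congr rfl fun k _ => ?_
  rw [map_smul]; simp [mul_comm]

end ideal


section diag

variable {A : Type} [NormedRing A] [NormedAlgebra ℂ A] [CompleteSpace A]
variable {J : Submodule ℂ A} (d : Dat J)

/-- operators whose contraction lies in `J` -/
noncomputable def Dat.X1 : Submodule ℂ (EE A) := J.comap (d.Psi : EE A →ₗ[ℂ] A)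

lemma Dat.mem_X1 (T : EE A) : T ∈ d.X1 ↔ d.Psi T ∈ J := Iff.rfl

/-- operators mapping the annihilator of `J` to `J` -/
noncomputable def Dat.XJ : Submodule ℂ (EE A) :=
  ⨅ k, J.comap (evE (d.F k) : EE A →ₗ[ℂ] A)

lemma Dat.mem_XJ (T : EE A) : T ∈ d.XJ ↔ ∀ k, T (d.F k) ∈ J := by
  simp [Dat.XJ, Submodule.mem_iInf]

lemma Dat.X1_closed (hcl : IsClosed (J : Set A)) : IsClosed (d.X1 : Set (EE A)) :=
  hcl.preimage d.Psi.continuous

lemma Dat.XJ_closed (hcl : IsClosed (J : Set A)) : IsClosed (d.XJ : Set (EE A)) := by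
  have : (d.XJ : Set (EE A)) = ⋂ k, (evE (d.F k)) ⁻¹' (J : Set A) := by
    ext T; simp [Dat.mem_XJ]
  rw [this]
  exact isClosed_iInter fun k => hcl.preimage (evE (d.F k)).continuous

variable (hJ : ∀ a x : A, x ∈ J → a * x ∈ J ∧ x * a ∈ J)
include hJ

lemma Dat.la_vanish {f : Du A} (hf : ∀ x ∈ J, f x = 0) (a : A) : ∀ x ∈ J, la a f x = 0 := by
  intro x hx; rw [la_apply]; exact hf _ (hJ a x hx).2

lemma Dat.la_mem {f : Du A} (hf : ∀ x ∈ J, f x = 0) {a : A} (ha : a ∈ J) : la a f = 0 := by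
  ext b; rw [la_apply]; exact hf _ (hJ b a ha).1

lemma Dat.Psi_XJ {T : EE A} (hT : T ∈ d.XJ) : d.Psi T ∈ J := by
  rw [d.Psi_apply]
  exact Submodule.sum_mem _ fun k _ => (hJ _ _ ((d.mem_XJ T).1 hT k)).2

lemma Dat.X1_L (a : A) (T : EE A) (hT : T ∈ d.X1) : LE a T ∈ d.X1 := by
  rw [Dat.mem_X1] at *
  have : d.Psi (LE a T) = a * d.Psi T := by
    simp only [d.Psi_apply, LE_apply, Finset.mul_sum, mul_assoc]
  rw [this]; exact (hJ a _ hT).1

lemma Dat.Psi_R (a : A) (T : EE A) : d.Psi (RE a T) - d.Psi T * a ∈ J := by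
  have h1 : ∀ k, T (la a (d.F k)) = ∑ l, d.F k (d.c l * a) • T (d.F l) := by
    intro k
    have := d.expand (Dat.la_vanish hJ (d.hF k) a)
    conv_lhs => rw [this]
    simp only [map_sum, map_smul, la_apply]
  have h2 : d.Psi (RE a T) = ∑ l, T (d.F l) * (∑ k, d.F k (d.c l * a) • d.c k) := by
    rw [d.Psi_apply]
    simp only [RE_apply, h1, Finset.sum_mul, Finset.mul_sum]
    rw [Finset.sum_comm]
    refine Finset.sum_congr rfl fun l _ => Finset.sum_congr rfl fun k _ => ?_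
    simp
  have h3 : d.Psi T * a = ∑ l, T (d.F l) * (d.c l * a) := by
    rw [d.Psi_apply, Finset.sum_mul]; simp only [mul_assoc]
  rw [h2, h3, ← Finset.sum_sub_distrib]
  refine Submodule.sum_mem _ fun l _ => ?_
  rw [← mul_sub]
  refine (hJ _ _ ?_).1
  rw [← neg_sub]
  exact J.neg_mem (d.hc _)

lemma Dat.X1_R (a : A) (T : EE A) (hT : T ∈ d.X1) : RE a T ∈ d.X1 := by
  rw [Dat.mem_X1] at *
  have h1 := d.Psi_R hJ a T
  have h2 := (hJ a _ hT).2
  have := J.add_mem h1 h2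
  simpa using this

lemma Dat.XJ_L (a : A) (T : EE A) (hT : T ∈ d.XJ) : LE a T ∈ d.XJ := by
  rw [Dat.mem_XJ] at *
  intro k; rw [LE_apply]; exact (hJ a _ (hT k)).1

lemma Dat.XJ_vanish {T : EE A} (hT : T ∈ d.XJ) {f : Du A} (hf : ∀ x ∈ J, f x = 0) :
    T f ∈ J := by
  rw [d.expand hf, map_sum]
  refine Submodule.sum_mem _ fun k _ => ?_
  rw [map_smul]
  exact J.smul_mem _ ((d.mem_XJ T).1 hT k)

lemma Dat.XJ_R (a : A) (T : EE A) (hT : T ∈ d.XJ) : RE a T ∈ d.XJ := by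
  rw [Dat.mem_XJ]
  intro k; rw [RE_apply]
  exact d.XJ_vanish hJ hT (Dat.la_vanish hJ (d.hF k) a)

lemma Dat.t0_mem (a : A) : LE a (rk 1 1 : EE A) - RE a (rk 1 1) ∈ d.X1 := by
  rw [Dat.mem_X1, map_sub]
  have h1 : d.Psi (LE a (rk 1 1)) = a * ∑ k, d.F k 1 • d.c k := by
    rw [d.Psi_apply, Finset.mul_sum]
    refine Finset.sum_congr rfl fun k _ => ?_
    simp
  have h2 : d.Psi (RE a (rk 1 1)) = ∑ k, d.F k a • d.c k := by
    rw [d.Psi_apply]
    refine Finset.sum_congr rfl fun k _ => ?_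
    simp
  rw [h1, h2]
  have h3 := (hJ a _ (d.hc 1)).1
  have h4 := d.hc a
  have := J.sub_mem h4 h3
  rw [mul_sub, mul_one] at this
  simpa using this

end diag


section diag2

variable {A : Type} [NormedRing A] [NormedAlgebra ℂ A] [CompleteSpace A]
variable {J : Submodule ℂ A} (d : Dat J)

/-- coordinates of an operator -/
noncomputable def Dat.coord (T : EE A) : Fin d.n → Fin d.n → ℂ := fun k l => d.F l (T (d.F k))

/-- finite rank operator with given coordinates -/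
noncomputable def Dat.tM : (Fin d.n → Fin d.n → ℂ) →ₗ[ℂ] EE A where
  toFun M := ∑ k, ∑ l, M k l • rk (d.c l) (d.c k)
  map_add' M N := by
    simp only [Pi.add_apply, add_smul, Finset.sum_add_distrib]
  map_smul' c M := by
    simp only [Pi.smul_apply, smul_eq_mul, mul_smul, Finset.smul_sum, RingHom.id_apply]

lemma EE.sum_apply {ι : Type} (s : Finset ι) (T : ι → EE A) (f : Du A) :
    (∑ i ∈ s, T i) f = ∑ i ∈ s, T i f := by
  exact map_sum ({ toFun := fun g : EE A => g f, map_zero' := rfl, map_add' := fun _ _ => rfl } :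
      EE A →+ A) _ s

lemma Dat.tM_apply (M : Fin d.n → Fin d.n → ℂ) (k : Fin d.n) :
    d.tM M (d.F k) = ∑ l, M k l • d.c l := by
  change (∑ k, ∑ l, M k l • rk (d.c l) (d.c k)) (d.F k) = _
  rw [EE.sum_apply]
  rw [Finset.sum_eq_single k]
  · rw [EE.sum_apply]
    refine Finset.sum_congr rfl fun l _ => ?_
    simp [d.hFc]
  · intro k' _ hk'
    rw [EE.sum_apply]
    refine Finset.sum_eq_zero fun l _ => ?_
    simp [d.hFc, hk'.symm]
  · simp

lemma Dat.sub_tM (T : EE A) : T - d.tM (d.coord T) ∈ d.XJ := by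
  rw [Dat.mem_XJ]
  intro k
  rw [EE.sub_apply, d.tM_apply]
  exact d.hc _

/-- the linear system whose solution is a diagonal for the quotient -/
noncomputable def Dat.sys : (Fin d.n → Fin d.n → ℂ) →ₗ[ℂ]
    ((Fin d.n → ℂ) × (Fin d.n → Fin d.n → Fin d.n → ℂ)) where
  toFun M := (fun m => d.F m (d.Psi (d.tM M)),
    fun m k l => d.F l ((LE (d.c m) (d.tM M) - RE (d.c m) (d.tM M)) (d.F k)))
  map_add' M N := by
    ext <;> simp [map_add] <;> ring
  map_smul' c M := by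
    ext <;> simp [map_smul] <;> ring

lemma Dat.exists_t1 (h : UBAC A) (hJ : ∀ a x : A, x ∈ J → a * x ∈ J ∧ x * a ∈ J)
    (hcl : IsClosed (J : Set A)) :
    ∃ M : Fin d.n → Fin d.n → ℂ, 1 - d.Psi (d.tM M) ∈ J ∧
      ∀ a, LE a (d.tM M) - RE a (d.tM M) ∈ d.XJ := by
  classical
  obtain ⟨K, _, hK⟩ := exists_net h d.X1 (d.X1_closed hcl) (d.X1_L hJ) (d.X1_R hJ) (rk 1 1)
    (d.t0_mem hJ)
  have hPsi0 : 1 - d.Psi (rk 1 1 : EE A) ∈ J := by
    have : d.Psi (rk 1 1 : EE A) = ∑ k, d.F k 1 • d.c k := by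
      rw [d.Psi_apply]; simp
    rw [this]; exact d.hc 1
  let v0 : (Fin d.n → ℂ) × (Fin d.n → Fin d.n → Fin d.n → ℂ) := (fun m => d.F m 1, 0)
  have hmem : v0 ∈ closure ((LinearMap.range d.sys : Submodule ℂ _) :
      Set ((Fin d.n → ℂ) × (Fin d.n → Fin d.n → Fin d.n → ℂ))) := by
    rw [Metric.mem_closure_iff]
    intro ε hε
    let B : ℝ := ∑ k, ‖d.F k‖
    have hB : ∀ k, ‖d.F k‖ ≤ B := fun k =>
      Finset.single_le_sum (f := fun k => ‖d.F k‖) (fun _ _ => norm_nonneg _) (Finset.mem_univ k)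
    have hB0 : 0 ≤ B := Finset.sum_nonneg fun _ _ => norm_nonneg _
    obtain ⟨u, hu1, _, hu3⟩ := hK (Finset.univ.image d.c) (ε / (2 * (B * B + 1))) (by positivity)
    refine ⟨d.sys (d.coord u), ⟨_, rfl⟩, ?_⟩
    have hXJ : d.tM (d.coord u) - u ∈ d.XJ := by
      have := d.sub_tM u
      have h2 := d.XJ.neg_mem this
      simpa using h2
    have e1 : ∀ m, d.F m (d.Psi (d.tM (d.coord u))) = d.F m 1 := by
      intro m
      have h1 : d.Psi (d.tM (d.coord u)) - d.Psi u ∈ J := by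
        rw [← map_sub]; exact d.Psi_XJ hJ hXJ
      have h2 : d.Psi (rk 1 1) - d.Psi u ∈ J := by rw [← map_sub]; exact hu1
      have h3 : d.Psi (d.tM (d.coord u)) - 1 ∈ J := by
        have := J.sub_mem (J.sub_mem h1 h2) hPsi0
        have e : d.Psi (d.tM (d.coord u)) - d.Psi u - (d.Psi (rk 1 1) - d.Psi u)
          - (1 - d.Psi (rk 1 1)) = d.Psi (d.tM (d.coord u)) - 1 := by abel
        rwa [e] at this
      have := d.hF m _ h3
      rw [map_sub, sub_eq_zero] at this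
      exact this
    have e2 : ∀ m k l, d.F l ((LE (d.c m) (d.tM (d.coord u)) - RE (d.c m) (d.tM (d.coord u)))
        (d.F k)) = d.F l ((LE (d.c m) u - RE (d.c m) u) (d.F k)) := by
      intro m k l
      have h1 : (LE (d.c m) (d.tM (d.coord u) - u) - RE (d.c m) (d.tM (d.coord u) - u)) ∈ d.XJ :=
        d.XJ.sub_mem (d.XJ_L hJ _ _ hXJ) (d.XJ_R hJ _ _ hXJ)
      have h2 := d.hF l _ ((d.mem_XJ _).1 h1 k)
      have e : (LE (d.c m) (d.tM (d.coord u) - u) - RE (d.c m) (d.tM (d.coord u) - u))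
        = (LE (d.c m) (d.tM (d.coord u)) - RE (d.c m) (d.tM (d.coord u)))
          - (LE (d.c m) u - RE (d.c m) u) := by
        simp only [map_sub]; abel
      rw [e, EE.sub_apply, map_sub, sub_eq_zero] at h2
      exact h2
    have e3 : ∀ m k l, ‖d.F l ((LE (d.c m) u - RE (d.c m) u) (d.F k))‖ ≤ ε / 2 := by
      intro m k l
      have h1 := hu3 (d.c m) (Finset.mem_image_of_mem _ (Finset.mem_univ m))
      calc ‖d.F l ((LE (d.c m) u - RE (d.c m) u) (d.F k))‖
          ≤ ‖d.F l‖ * (‖LE (d.c m) u - RE (d.c m) u‖ * ‖d.F k‖) := by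
            refine (Du.le_norm _ _).trans ?_
            gcongr
            exact EE.le_norm _ _
        _ ≤ B * ((ε / (2 * (B * B + 1))) * B) := by
            gcongr
            · exact hB l
            · exact hB k
        _ = (B * B) / (B * B + 1) * (ε / 2) := by field_simp
        _ ≤ 1 * (ε / 2) := by
            gcongr
            rw [div_le_one (by positivity)]; linarith
        _ = ε / 2 := one_mul _
    rw [dist_eq_norm]
    refine lt_of_le_of_lt (b := ε / 2) ?_ (by linarith)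
    rw [Prod.norm_def, max_le_iff]
    constructor
    · rw [pi_norm_le_iff_of_nonneg (by positivity)]
      intro m
      have : (v0 - d.sys (d.coord u)).1 m = d.F m 1 - d.F m (d.Psi (d.tM (d.coord u))) := rfl
      rw [this, e1 m, sub_self, norm_zero]; positivity
    · rw [pi_norm_le_iff_of_nonneg (by positivity)]
      intro m
      rw [pi_norm_le_iff_of_nonneg (by positivity)]
      intro k
      rw [pi_norm_le_iff_of_nonneg (by positivity)]
      intro l
      have : (v0 - d.sys (d.coord u)).2 m k l = 0 - d.F l ((LE (d.c m) (d.tM (d.coord u))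
        - RE (d.c m) (d.tM (d.coord u))) (d.F k)) := rfl
      rw [this, e2, zero_sub, norm_neg]; exact e3 m k l
  have hclosed : IsClosed ((LinearMap.range d.sys : Submodule ℂ _) :
      Set ((Fin d.n → ℂ) × (Fin d.n → Fin d.n → Fin d.n → ℂ))) :=
    (LinearMap.range d.sys).closed_of_finiteDimensional
  rw [hclosed.closure_eq] at hmem
  obtain ⟨M, hM⟩ := hmem
  have hM1 : ∀ m, d.F m (d.Psi (d.tM M)) = d.F m 1 := fun m => congrFun (congrArg Prod.fst hM) m
  have hM2 : ∀ m k l, d.F l ((LE (d.c m) (d.tM M) - RE (d.c m) (d.tM M)) (d.F k)) = 0 :=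
    fun m k l => congrFun (congrFun (congrFun (congrArg Prod.snd hM) m) k) l
  refine ⟨M, ?_, ?_⟩
  · rw [d.mem_iff]
    intro k
    rw [map_sub, hM1, sub_self]
  · intro a
    have hc : ∀ m, LE (d.c m) (d.tM M) - RE (d.c m) (d.tM M) ∈ d.XJ := by
      intro m; rw [Dat.mem_XJ]; intro k; rw [d.mem_iff]; intro l; exact hM2 m k l
    have hj : ∀ x ∈ J, LE x (d.tM M) - RE x (d.tM M) ∈ d.XJ := by
      intro x hx
      rw [Dat.mem_XJ]; intro k
      rw [EE.sub_apply, LE_apply, RE_apply, Dat.la_mem hJ (d.hF k) hx, map_zero, sub_zero]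
      exact (hJ _ _ hx).2
    have ha : a = (a - ∑ k, d.F k a • d.c k) + ∑ k, d.F k a • d.c k := by abel
    rw [ha, map_add, map_add, _root_.add_apply, _root_.add_apply]
    have h1 := hj _ (d.hc a)
    have h2 : LE (∑ k, d.F k a • d.c k) (d.tM M) - RE (∑ k, d.F k a • d.c k) (d.tM M) ∈ d.XJ := by
      have e : LE (∑ k, d.F k a • d.c k) (d.tM M) - RE (∑ k, d.F k a • d.c k) (d.tM M)
        = ∑ k, d.F k a • (LE (d.c k) (d.tM M) - RE (d.c k) (d.tM M)) := by
        simp only [map_sum, map_smul, _root_.sum_apply, _root_.smul_apply, smul_sub,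
          Finset.sum_sub_distrib]
      rw [e]
      exact Submodule.sum_mem _ fun k _ => d.XJ.smul_mem _ (hc k)
    have := d.XJ.add_mem h1 h2
    convert this using 1
    abel

end diag2


section W

variable {A : Type} [NormedRing A] [NormedAlgebra ℂ A] [CompleteSpace A]

/-- operators that are weak-star to norm continuous on bounded sets -/
def WP (T : EE A) : Prop :=
  ∀ δ : ℝ, 0 < δ → ∃ Y : Finset A, ∃ C : ℝ, 0 ≤ C ∧ ∀ f : Du A, ‖T f‖ ≤ δ * ‖f‖ + C * ∑ y ∈ Y, ‖f y‖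

/-- the closed submodule of such operators -/
noncomputable def WS (A : Type) [NormedRing A] [NormedAlgebra ℂ A] [CompleteSpace A] :
    Submodule ℂ (EE A) where
  carrier := {T | WP T}
  zero_mem' := by
    intro δ hδ
    exact ⟨∅, 0, le_rfl, fun f => by simp; positivity⟩
  add_mem' := by
    classical
    intro S T hS hT δ hδ
    obtain ⟨Y, C, hC, h⟩ := hS (δ / 2) (by positivity)
    obtain ⟨Y', C', hC', h'⟩ := hT (δ / 2) (by positivity)
    refine ⟨Y ∪ Y', C + C', by positivity, fun f => ?_⟩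
    have s1 : ∑ y ∈ Y, ‖f y‖ ≤ ∑ y ∈ Y ∪ Y', ‖f y‖ :=
      Finset.sum_le_sum_of_subset_of_nonneg Finset.subset_union_left fun _ _ _ => norm_nonneg _
    have s2 : ∑ y ∈ Y', ‖f y‖ ≤ ∑ y ∈ Y ∪ Y', ‖f y‖ :=
      Finset.sum_le_sum_of_subset_of_nonneg Finset.subset_union_right fun _ _ _ => norm_nonneg _
    calc ‖(S + T) f‖ ≤ ‖S f‖ + ‖T f‖ := norm_add_le _ _
      _ ≤ (δ / 2 * ‖f‖ + C * ∑ y ∈ Y, ‖f y‖) + (δ / 2 * ‖f‖ + C' * ∑ y ∈ Y', ‖f y‖) :=
        add_le_add (h f) (h' f)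
      _ ≤ (δ / 2 * ‖f‖ + C * ∑ y ∈ Y ∪ Y', ‖f y‖) + (δ / 2 * ‖f‖ + C' * ∑ y ∈ Y ∪ Y', ‖f y‖) := by
        gcongr
      _ = _ := by ring
  smul_mem' := by
    intro c T hT δ hδ
    obtain ⟨Y, C, hC, h⟩ := hT (δ / (‖c‖ + 1)) (by positivity)
    refine ⟨Y, ‖c‖ * C, by positivity, fun f => ?_⟩
    calc ‖(c • T) f‖ = ‖c‖ * ‖T f‖ := by rw [EE.smul_apply, norm_smul]
      _ ≤ ‖c‖ * (δ / (‖c‖ + 1) * ‖f‖ + C * ∑ y ∈ Y, ‖f y‖) := by gcongr; exact h f
      _ = (‖c‖ / (‖c‖ + 1)) * (δ * ‖f‖) + ‖c‖ * C * ∑ y ∈ Y, ‖f y‖ := by field_simp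
      _ ≤ 1 * (δ * ‖f‖) + ‖c‖ * C * ∑ y ∈ Y, ‖f y‖ := by
        gcongr
        rw [div_le_one (by positivity)]; linarith
      _ = _ := by ring

lemma mem_WS (T : EE A) : T ∈ WS A ↔ WP T := Iff.rfl

lemma WS_closed : IsClosed (WS A : Set (EE A)) := by
  rw [← isSeqClosed_iff_isClosed]
  intro u T hu hT
  change WP T
  intro δ hδ
  rw [Metric.tendsto_atTop] at hT
  obtain ⟨N, hN⟩ := hT (δ / 2) (by positivity)
  obtain ⟨Y, C, hC, h⟩ := (hu N : WP (u N)) (δ / 2) (by positivity)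
  refine ⟨Y, C, hC, fun f => ?_⟩
  have h1 : ‖T - u N‖ ≤ δ / 2 := by
    have := hN N le_rfl
    rw [dist_comm, dist_eq_norm] at this
    exact this.le
  calc ‖T f‖ = ‖(T - u N) f + u N f‖ := by rw [EE.sub_apply]; congr 1; abel
    _ ≤ ‖(T - u N) f‖ + ‖u N f‖ := norm_add_le _ _
    _ ≤ ‖T - u N‖ * ‖f‖ + (δ / 2 * ‖f‖ + C * ∑ y ∈ Y, ‖f y‖) :=
      add_le_add (EE.le_norm _ _) (h f)
    _ ≤ δ / 2 * ‖f‖ + (δ / 2 * ‖f‖ + C * ∑ y ∈ Y, ‖f y‖) := by gcongr
    _ = _ := by ring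

lemma WS_L (a : A) (T : EE A) (hT : T ∈ WS A) : LE a T ∈ WS A := by
  intro δ hδ
  obtain ⟨Y, C, hC, h⟩ := hT (δ / (‖a‖ + 1)) (by positivity)
  refine ⟨Y, ‖a‖ * C, by positivity, fun f => ?_⟩
  calc ‖LE a T f‖ ≤ ‖a‖ * ‖T f‖ := by rw [LE_apply]; exact norm_mul_le _ _
    _ ≤ ‖a‖ * (δ / (‖a‖ + 1) * ‖f‖ + C * ∑ y ∈ Y, ‖f y‖) := by gcongr; exact h f
    _ = (‖a‖ / (‖a‖ + 1)) * (δ * ‖f‖) + ‖a‖ * C * ∑ y ∈ Y, ‖f y‖ := by field_simp
    _ ≤ 1 * (δ * ‖f‖) + ‖a‖ * C * ∑ y ∈ Y, ‖f y‖ := by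
      gcongr
      rw [div_le_one (by positivity)]; linarith
    _ = _ := by ring

lemma WS_R (a : A) (T : EE A) (hT : T ∈ WS A) : RE a T ∈ WS A := by
  classical
  intro δ hδ
  obtain ⟨Y, C, hC, h⟩ := hT (δ / (‖a‖ + 1)) (by positivity)
  refine ⟨Y.image (fun y => y * a), C * Y.card, by positivity, fun f => ?_⟩
  have h1 : ∑ y ∈ Y, ‖f (y * a)‖ ≤ Y.card * ∑ z ∈ Y.image (fun y => y * a), ‖f z‖ := by
    have : ∀ y ∈ Y, ‖f (y * a)‖ ≤ ∑ z ∈ Y.image (fun y => y * a), ‖f z‖ := fun y hy =>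
      Finset.single_le_sum (f := fun z => ‖f z‖) (fun _ _ => norm_nonneg _)
        (Finset.mem_image_of_mem _ hy)
    have := Finset.sum_le_sum this
    simpa using this
  calc ‖RE a T f‖ = ‖T (la a f)‖ := rfl
    _ ≤ δ / (‖a‖ + 1) * ‖la a f‖ + C * ∑ y ∈ Y, ‖la a f y‖ := h _
    _ ≤ δ / (‖a‖ + 1) * (‖a‖ * ‖f‖) + C * ∑ y ∈ Y, ‖la a f y‖ := by
      gcongr; exact la_norm a f
    _ = (‖a‖ / (‖a‖ + 1)) * (δ * ‖f‖) + C * ∑ y ∈ Y, ‖f (y * a)‖ := by
      simp only [la_apply]; field_simp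
    _ ≤ 1 * (δ * ‖f‖) + C * (Y.card * ∑ z ∈ Y.image (fun y => y * a), ‖f z‖) := by
      gcongr
      rw [div_le_one (by positivity)]; linarith
    _ = _ := by ring

lemma rk_WS (x y : A) : rk x y ∈ WS A := by
  intro δ hδ
  refine ⟨{y}, ‖x‖, by positivity, fun f => ?_⟩
  rw [rk_apply, norm_smul, Finset.sum_singleton]
  have : 0 ≤ δ * ‖f‖ := by positivity
  linarith [mul_comm ‖f y‖ ‖x‖]

variable {J : Submodule ℂ A} (d : Dat J)

lemma Dat.tM_WS (M : Fin d.n → Fin d.n → ℂ) : d.tM M ∈ WS A :=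
  Submodule.sum_mem _ fun _ _ => Submodule.sum_mem _ fun _ _ => (WS A).smul_mem _ (rk_WS _ _)

lemma Dat.exists_u (h : UBAC A) (hJ : ∀ a x : A, x ∈ J → a * x ∈ J ∧ x * a ∈ J)
    (hcl : IsClosed (J : Set A)) :
    ∃ (t : EE A) (K : ℝ), 0 ≤ K ∧ 1 - d.Psi t ∈ J ∧
      ∀ F : Finset A, ∀ ε : ℝ, 0 < ε → ∃ u : EE A, WP u ∧ u - t ∈ d.XJ ∧
        (∀ a, ‖LE a u - RE a u‖ ≤ K * ‖a‖) ∧ ∀ a ∈ F, ‖LE a u - RE a u‖ < ε := by
  obtain ⟨M, hM1, hM2⟩ := d.exists_t1 h hJ hcl
  obtain ⟨K, hK0, hK⟩ := exists_net h (WS A ⊓ d.XJ) (WS_closed.inter (d.XJ_closed hcl))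
    (fun a T hT => ⟨WS_L a T hT.1, d.XJ_L hJ a T hT.2⟩)
    (fun a T hT => ⟨WS_R a T hT.1, d.XJ_R hJ a T hT.2⟩)
    (d.tM M)
    (fun a => ⟨(WS A).sub_mem (WS_L a _ (d.tM_WS M)) (WS_R a _ (d.tM_WS M)), hM2 a⟩)
  refine ⟨d.tM M, K, hK0, hM1, fun F ε hε => ?_⟩
  obtain ⟨u, hu1, hu2, hu3⟩ := hK F ε hε
  refine ⟨u, ?_, ?_, hu2, hu3⟩
  · have := (WS A).sub_mem (d.tM_WS M) hu1.1
    rwa [sub_sub_cancel] at this
  · have := d.XJ.neg_mem hu1.2
    rwa [neg_sub] at this

/-- for `u` congruent to the diagonal, `1 - Psi u` lies in `J` -/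
lemma Dat.one_sub_mem (hJ : ∀ a x : A, x ∈ J → a * x ∈ J ∧ x * a ∈ J) {t u : EE A}
    (ht : 1 - d.Psi t ∈ J) (hu : u - t ∈ d.XJ) : 1 - d.Psi u ∈ J := by
  have h1 := d.Psi_XJ hJ hu
  rw [map_sub] at h1
  have := J.sub_mem ht h1
  have e : 1 - d.Psi t - (d.Psi u - d.Psi t) = 1 - d.Psi u := by abel
  rwa [e] at this

lemma Dat.approx_right (hJ : ∀ a x : A, x ∈ J → a * x ∈ J ∧ x * a ∈ J) {u : EE A}
    {x : A} (hx : x ∈ J) :
    ‖x * (1 - d.Psi u) - x‖ ≤ ‖LE x u - RE x u‖ * ∑ k, ‖d.F k‖ * ‖d.c k‖ := by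
  have e : x * (1 - d.Psi u) - x = - ∑ k, (LE x u - RE x u) (d.F k) * d.c k := by
    rw [mul_sub, mul_one, d.Psi_apply, Finset.mul_sum]
    have : ∀ k, (LE x u - RE x u) (d.F k) = x * u (d.F k) := by
      intro k
      rw [EE.sub_apply, LE_apply, RE_apply, Dat.la_mem hJ (d.hF k) hx, map_zero, sub_zero]
    simp only [this, mul_assoc]
    abel
  rw [e, norm_neg, Finset.mul_sum]
  refine (norm_sum_le _ _).trans (Finset.sum_le_sum fun k _ => ?_)
  calc ‖(LE x u - RE x u) (d.F k) * d.c k‖ ≤ ‖(LE x u - RE x u) (d.F k)‖ * ‖d.c k‖ :=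
        norm_mul_le _ _
    _ ≤ (‖LE x u - RE x u‖ * ‖d.F k‖) * ‖d.c k‖ := by gcongr; exact EE.le_norm _ _
    _ = _ := by ring

lemma right_ai (h : UBAC A) (hJ : ∀ a x : A, x ∈ J → a * x ∈ J ∧ x * a ∈ J)
    (hcl : IsClosed (J : Set A)) (hfd : FiniteDimensional ℂ (A ⧸ J))
    (G : Finset A) (hG : ∀ x ∈ G, x ∈ J) (ε : ℝ) (hε : 0 < ε) :
    ∃ w ∈ J, ∀ x ∈ G, ‖x * w - x‖ < ε := by
  obtain ⟨d⟩ := exists_dat J hcl hfd
  obtain ⟨t, K, hK0, ht, hu⟩ := d.exists_u h hJ hcl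
  have hS : 0 ≤ ∑ k, ‖d.F k‖ * ‖d.c k‖ := Finset.sum_nonneg fun _ _ => by positivity
  obtain ⟨u, _, hu2, _, hu4⟩ := hu G (ε / (∑ k, ‖d.F k‖ * ‖d.c k‖ + 1)) (by positivity)
  refine ⟨1 - d.Psi u, d.one_sub_mem hJ ht hu2, fun x hx => ?_⟩
  calc ‖x * (1 - d.Psi u) - x‖ ≤ ‖LE x u - RE x u‖ * ∑ k, ‖d.F k‖ * ‖d.c k‖ :=
        d.approx_right hJ (hG x hx)
    _ ≤ (ε / (∑ k, ‖d.F k‖ * ‖d.c k‖ + 1)) * ∑ k, ‖d.F k‖ * ‖d.c k‖ := by
      gcongr; exact (hu4 x hx).le
    _ < ε := by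
      rw [div_mul_eq_mul_div, div_lt_iff₀ (by positivity)]
      nlinarith

end W

section ultra

variable {ι : Type} {E W : Type} [NormedAddCommGroup E] [NormedSpace ℂ E] [CompleteSpace E]
  [NormedAddCommGroup W] [NormedSpace ℂ W] [FiniteDimensional ℂ W]

lemma lemP (V : Ultrafilter ι) (T : ι → W →ₗ[ℂ] E) (M : ℝ) (hM : ∀ i w, ‖T i w‖ ≤ M * ‖w‖)
    (hsep : ∀ w : W, w ≠ 0 → ∀ y : E, ¬ Tendsto (fun i => T i w) V (𝓝 y)) :
    ∃ d : ℝ, 0 < d ∧ ∀ (w : W) (y : E), ∀ᶠ i in (V : Filter ι), d * ‖w‖ ≤ ‖T i w - y‖ := by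
  by_contra hcon
  push Not at hcon
  have hcon' : ∀ n : ℕ, ∃ w : W, ‖w‖ = 1 ∧ ∃ y : E, ∀ᶠ i in (V : Filter ι),
      ‖T i w - y‖ < 1 / ((n : ℝ) + 1) := by
    intro n
    obtain ⟨w, y, hwy⟩ := hcon (1 / ((n : ℝ) + 1)) (by positivity)
    have h1 : ∀ᶠ i in (V : Filter ι), ‖T i w - y‖ < 1 / ((n : ℝ) + 1) * ‖w‖ := hwy
    have hw : w ≠ 0 := by
      rintro rfl
      obtain ⟨i, hi⟩ := h1.exists
      rw [norm_zero, mul_zero] at hi
      exact absurd hi (not_lt.2 (norm_nonneg _))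
    have hw' : 0 < ‖w‖ := norm_pos_iff.2 hw
    refine ⟨((‖w‖⁻¹ : ℝ) : ℂ) • w, ?_, ((‖w‖⁻¹ : ℝ) : ℂ) • y, ?_⟩
    · rw [norm_smul, Complex.norm_real, norm_inv, norm_norm, inv_mul_cancel₀ hw'.ne']
    · filter_upwards [h1] with i hi
      rw [map_smul, ← smul_sub, norm_smul, Complex.norm_real, norm_inv, norm_norm,
        inv_mul_lt_iff₀ hw']
      linarith
  choose w hw y hy using hcon'
  -- a convergent subsequence of the unit vectors
  obtain ⟨w0, hw0, φ, hφ, hlim⟩ := (isCompact_sphere (0 : W) 1).tendsto_subseq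
    (x := w) (fun n => by simp [hw n])
  have hw0n : ‖w0‖ = 1 := by simpa using hw0
  have hM0 : 0 ≤ M := by
    obtain ⟨i, _⟩ := (hy 0).exists
    have := (norm_nonneg _).trans (hM i w0)
    rwa [hw0n, mul_one] at this
  have hdist : ∀ n m, ‖y n - y m‖ ≤ 1 / ((n : ℝ) + 1) + 1 / ((m : ℝ) + 1) + M * ‖w n - w m‖ := by
    intro n m
    obtain ⟨i, hi1, hi2⟩ := ((hy n).and (hy m)).exists
    have e : y n - y m = -(T i (w n) - y n) + (T i (w m) - y m) + T i (w n - w m) := by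
      rw [map_sub]; abel
    rw [e]
    calc ‖-(T i (w n) - y n) + (T i (w m) - y m) + T i (w n - w m)‖
        ≤ ‖T i (w n) - y n‖ + ‖T i (w m) - y m‖ + ‖T i (w n - w m)‖ := by
          refine (norm_add_le _ _).trans ?_
          gcongr
          refine (norm_add_le _ _).trans ?_
          rw [norm_neg]
      _ ≤ _ := by
          gcongr
          exact hM i _
  have hcauchy : CauchySeq (fun n => y (φ n)) := by
    rw [Metric.cauchySeq_iff]
    intro ε hε
    have hwc : CauchySeq (fun n => w (φ n)) := hlim.cauchySeq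
    rw [Metric.cauchySeq_iff] at hwc
    obtain ⟨N1, hN1⟩ := hwc (ε / (3 * (M + 1))) (by positivity)
    obtain ⟨N2, hN2⟩ := exists_nat_one_div_lt (show 0 < ε / 3 by positivity)
    refine ⟨max N1 N2, fun m hm n hn => ?_⟩
    rw [dist_eq_norm]
    have hb : ∀ k, max N1 N2 ≤ k → 1 / ((φ k : ℝ) + 1) < ε / 3 := by
      intro k hk
      refine lt_of_le_of_lt ?_ hN2
      have : N2 ≤ φ k := (le_max_right _ _).trans (hk.trans (hφ.id_le k))
      gcongr
    have h3 : M * ‖w (φ m) - w (φ n)‖ ≤ ε / 3 := by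
      have := hN1 m ((le_max_left _ _).trans hm) n ((le_max_left _ _).trans hn)
      rw [dist_eq_norm] at this
      calc M * ‖w (φ m) - w (φ n)‖ ≤ (M + 1) * (ε / (3 * (M + 1))) := by
            gcongr
            linarith
        _ = ε / 3 := by field_simp
    have := hdist (φ m) (φ n)
    linarith [hb m hm, hb n hn]
  obtain ⟨y0, hy0⟩ := cauchySeq_tendsto_of_complete hcauchy
  refine hsep w0 (by intro h; rw [h, norm_zero] at hw0n; exact zero_ne_one hw0n) y0 ?_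
  rw [Metric.tendsto_nhds]
  intro ε hε
  rw [Metric.tendsto_atTop] at hlim hy0
  obtain ⟨N1, hN1⟩ := hlim (ε / (3 * (M + 1))) (by positivity)
  obtain ⟨N2, hN2⟩ := exists_nat_one_div_lt (show 0 < ε / 3 by positivity)
  obtain ⟨N3, hN3⟩ := hy0 (ε / 3) (by positivity)
  set n := max N1 (max N2 N3) with hn
  have hn2 : N2 ≤ φ n :=
    ((le_max_left _ _).trans (le_max_right N1 _)).trans (hφ.id_le n)
  filter_upwards [hy (φ n)] with i hi
  rw [dist_eq_norm]
  have e : T i w0 - y0 = T i (w0 - w (φ n)) + (T i (w (φ n)) - y (φ n)) + (y (φ n) - y0) := by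
    rw [map_sub]; abel
  have h1 : ‖T i (w0 - w (φ n))‖ ≤ ε / 3 := by
    have := hN1 n (le_max_left _ _)
    rw [dist_comm, dist_eq_norm] at this
    calc ‖T i (w0 - w (φ n))‖ ≤ M * ‖w0 - w (φ n)‖ := hM i _
      _ ≤ (M + 1) * (ε / (3 * (M + 1))) := by
        gcongr
        · linarith
        · exact this.le
      _ = ε / 3 := by field_simp
  have h2 : ‖T i (w (φ n)) - y (φ n)‖ < ε / 3 := by
    refine hi.trans_le (le_trans ?_ hN2.le)
    gcongr
  have h3 : ‖y (φ n) - y0‖ < ε / 3 := by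
    have := hN3 n ((le_max_right _ _).trans (le_max_right _ _))
    rwa [dist_eq_norm] at this
  calc ‖T i w0 - y0‖ ≤ ‖T i (w0 - w (φ n))‖ + ‖T i (w (φ n)) - y (φ n)‖ + ‖y (φ n) - y0‖ := by
        rw [e]
        refine (norm_add_le _ _).trans ?_
        gcongr
        exact norm_add_le _ _
    _ < ε := by linarith

lemma lemQ (V : Ultrafilter ι) (T : ι → W →ₗ[ℂ] E) (M : ℝ) (hM : ∀ i w, ‖T i w‖ ≤ M * ‖w‖)
    (d : ℝ) (hd : 0 < d)
    (hP : ∀ (w : W) (y : E), ∀ᶠ i in (V : Filter ι), d * ‖w‖ ≤ ‖T i w - y‖)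
    (Y : Submodule ℂ E) [FiniteDimensional ℂ Y] :
    ∀ᶠ i in (V : Filter ι), ∀ (w : W) (y : Y), d / 2 * ‖w‖ ≤ ‖T i w - y‖ := by
  by_contra hcon
  push Not at hcon
  have key : ∀ᶠ i in (V : Filter ι), ∃ p : W × Y, ‖p.1‖ = 1 ∧ ‖T i p.1 - p.2‖ < d / 2 := by
    filter_upwards [hcon] with i hi
    obtain ⟨w, y, hwy⟩ := hi
    have hw : w ≠ 0 := by
      rintro rfl
      rw [norm_zero, mul_zero] at hwy
      exact absurd hwy (not_lt.2 (norm_nonneg _))
    have hw' : 0 < ‖w‖ := norm_pos_iff.2 hw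
    refine ⟨(((‖w‖⁻¹ : ℝ) : ℂ) • w, ((‖w‖⁻¹ : ℝ) : ℂ) • y), ?_, ?_⟩
    · rw [norm_smul, Complex.norm_real, norm_inv, norm_norm, inv_mul_cancel₀ hw'.ne']
    · dsimp only
      rw [map_smul, Submodule.coe_smul, ← smul_sub, norm_smul, Complex.norm_real, norm_inv,
        norm_norm, inv_mul_lt_iff₀ hw']
      linarith
  obtain ⟨f, hf⟩ := key.choice
  have hcomp : IsCompact (Metric.closedBall (0 : W) 1 ×ˢ Metric.closedBall (0 : Y) (|M| + d)) :=
    (isCompact_closedBall _ _).prod (isCompact_closedBall _ _)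
  have hin : ((V.map f : Ultrafilter (W × Y)) : Filter (W × Y))
      ≤ 𝓟 (Metric.closedBall (0 : W) 1 ×ˢ Metric.closedBall (0 : Y) (|M| + d)) := by
    rw [le_principal_iff]
    change ∀ᶠ i in (V : Filter ι), f i ∈ _
    filter_upwards [hf] with i hi
    refine ⟨by simp [hi.1], ?_⟩
    rw [mem_closedBall_zero_iff]
    have h1 : ‖T i (f i).1‖ ≤ |M| := by
      calc ‖T i (f i).1‖ ≤ M * ‖(f i).1‖ := hM _ _
        _ = M := by rw [hi.1, mul_one]
        _ ≤ |M| := le_abs_self M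
    have h2 : ‖((f i).2 : E)‖ ≤ ‖T i (f i).1‖ + ‖T i (f i).1 - (f i).2‖ := by
      have e : ((f i).2 : E) = T i (f i).1 - (T i (f i).1 - (f i).2) := by abel
      conv_lhs => rw [e]
      exact norm_sub_le _ _
    change ‖((f i).2 : E)‖ ≤ _
    linarith [hi.2]
  obtain ⟨⟨w0, y0⟩, _, hle⟩ := hcomp.ultrafilter_le_nhds _ hin
  have htend : Tendsto f V (𝓝 (w0, y0)) := hle
  have ht1 : Tendsto (fun i => (f i).1) V (𝓝 w0) := (continuous_fst.tendsto _).comp htend
  have ht2 : Tendsto (fun i => (f i).2) V (𝓝 y0) := (continuous_snd.tendsto _).comp htend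
  have hw0 : ‖w0‖ = 1 := by
    have h1 : Tendsto (fun i => ‖(f i).1‖) V (𝓝 ‖w0‖) := ht1.norm
    have h2 : Tendsto (fun i => ‖(f i).1‖) V (𝓝 1) :=
      tendsto_const_nhds.congr' (by filter_upwards [hf] with i hi using hi.1.symm)
    exact tendsto_nhds_unique h1 h2
  have e1 : ∀ᶠ i in (V : Filter ι), ‖w0 - (f i).1‖ < d / (4 * (|M| + 1)) := by
    have := (Metric.tendsto_nhds.1 ht1) (d / (4 * (|M| + 1))) (by positivity)
    filter_upwards [this] with i hi
    rwa [dist_comm, dist_eq_norm] at hi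
  have e2 : ∀ᶠ i in (V : Filter ι), ‖(f i).2 - y0‖ < d / 8 := by
    have := (Metric.tendsto_nhds.1 ht2) (d / 8) (by positivity)
    filter_upwards [this] with i hi
    rwa [dist_eq_norm] at hi
  obtain ⟨i, hi1, hi2, hi3, hi4⟩ := (e1.and (e2.and (hf.and (hP w0 y0)))).exists
  rw [hw0, mul_one] at hi4
  have e : T i w0 - y0 = T i (w0 - (f i).1) + (T i (f i).1 - (f i).2) + (((f i).2 : E) - y0) := by
    rw [map_sub]; abel
  have h1 : ‖T i (w0 - (f i).1)‖ ≤ d / 4 := by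
    calc ‖T i (w0 - (f i).1)‖ ≤ M * ‖w0 - (f i).1‖ := hM _ _
      _ ≤ (|M| + 1) * (d / (4 * (|M| + 1))) := by
        gcongr
        linarith [le_abs_self M]
      _ = d / 4 := by field_simp
  have h3 : ‖((f i).2 : E) - y0‖ < d / 8 := hi2
  have : ‖T i w0 - y0‖ < d := by
    calc ‖T i w0 - y0‖
        ≤ ‖T i (w0 - (f i).1)‖ + ‖T i (f i).1 - (f i).2‖ + ‖((f i).2 : E) - y0‖ := by
          rw [e]
          refine (norm_add_le _ _).trans ?_
          gcongr
          exact norm_add_le _ _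
      _ < d := by linarith [hi3.2]
  linarith

lemma lemR (T : W →ₗ[ℂ] E) (d : ℝ) (hd : 0 < d) (Y : Submodule ℂ E)
    (hT : ∀ (w : W) (y : Y), d * ‖w‖ ≤ ‖T w - y‖)
    (l : W →ₗ[ℂ] ℂ) (c : ℝ) (hc0 : 0 ≤ c) (hl : ∀ w, ‖l w‖ ≤ c * ‖w‖) :
    ∃ f : E →L[ℂ] ℂ, ‖f‖ ≤ c / d ∧ (∀ w, f (T w) = l w) ∧ ∀ y ∈ Y, f y = 0 := by
  let L : W × Y →ₗ[ℂ] E := T.coprod Y.subtype
  let lam : W × Y →ₗ[ℂ] ℂ := l.comp (LinearMap.fst ℂ W Y)
  have hb : ∀ v : W × Y, ‖lam v‖ ≤ c / d * ‖L v‖ := by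
    intro v
    have h1 : d * ‖v.1‖ ≤ ‖L v‖ := by
      have := hT v.1 (-v.2)
      simpa [L] using this
    calc ‖lam v‖ = ‖l v.1‖ := rfl
      _ ≤ c * ‖v.1‖ := hl _
      _ = c / d * (d * ‖v.1‖) := by field_simp
      _ ≤ c / d * ‖L v‖ := by gcongr
  obtain ⟨s, hs⟩ := L.rangeRestrict.exists_rightInverse_of_surjective L.range_rangeRestrict
  have hs' : ∀ z : LinearMap.range L, L (s z) = z := fun z => by
    have := congrArg (fun g => g z) hs
    have := congrArg Subtype.val this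
    simpa using this
  have hker : ∀ v v' : W × Y, L v = L v' → lam v = lam v' := by
    intro v v' hv
    have h1 := hb (v - v')
    rw [map_sub L, hv, sub_self, norm_zero, mul_zero, map_sub] at h1
    exact sub_eq_zero.1 (norm_le_zero_iff.1 h1)
  let g : LinearMap.range L →L[ℂ] ℂ := LinearMap.mkContinuous (lam.comp s) (c / d) (by
    intro z
    have := hb (s z)
    rw [hs' z] at this
    exact this)
  obtain ⟨f, hf1, hf2⟩ := exists_extension_norm_eq (LinearMap.range L) g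
  have hval : ∀ v : W × Y, f (L v) = lam v := by
    intro v
    have := hf1 ⟨L v, ⟨v, rfl⟩⟩
    rw [this]
    exact hker _ _ (hs' _)
  refine ⟨f, ?_, ?_, ?_⟩
  · rw [hf2]
    exact LinearMap.mkContinuous_norm_le _ (by positivity) _
  · intro w
    have := hval (w, 0)
    simpa [L, lam] using this
  · intro y hy
    have := hval (0, ⟨y, hy⟩)
    simpa [L, lam] using this

end ultra

section main

variable {A : Type} [NormedRing A] [NormedAlgebra ℂ A] [CompleteSpace A]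

/-- the annihilator of `J` in the dual -/
def annih (J : Submodule ℂ A) : Submodule ℂ (Du A) where
  carrier := {f | ∀ x ∈ J, f x = 0}
  zero_mem' := fun x _ => rfl
  add_mem' := by
    intro f g hf hg x hx
    rw [Du.add_apply, hf x hx, hg x hx, add_zero]
  smul_mem' := by
    intro c f hf x hx
    rw [Du.smul_apply, hf x hx, mul_zero]

lemma mem_annih {J : Submodule ℂ A} {f : Du A} : f ∈ annih J ↔ ∀ x ∈ J, f x = 0 := Iff.rfl

lemma annih_fd {J : Submodule ℂ A} (d : Dat J) : FiniteDimensional ℂ (annih J) := by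
  have : FiniteDimensional ℂ (Submodule.span ℂ (Set.range d.F)) :=
    FiniteDimensional.span_of_finite ℂ (Set.finite_range _)
  refine Submodule.finiteDimensional_of_le (S₂ := Submodule.span ℂ (Set.range d.F)) ?_
  intro f hf
  rw [d.expand hf]
  exact Submodule.sum_mem _ fun k _ => Submodule.smul_mem _ _ (Submodule.subset_span ⟨k, rfl⟩)

/-- the left action on the annihilator -/
noncomputable def lN {J : Submodule ℂ A} (hJ : ∀ a x : A, x ∈ J → a * x ∈ J ∧ x * a ∈ J)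
    (a : A) (g : annih J) : annih J := ⟨la a g, Dat.la_vanish hJ g.2 a⟩

/-- normalised operators on the annihilator -/
noncomputable def TT {J : Submodule ℂ A} (r : ℝ) (u : EE A) : annih J →ₗ[ℂ] A where
  toFun g := ((r : ℂ))⁻¹ • u (g : Du A)
  map_add' g h := by rw [Submodule.coe_add, map_add, smul_add]
  map_smul' c g := by
    rw [Submodule.coe_smul, map_smul, RingHom.id_apply, smul_comm]

lemma TT_apply {J : Submodule ℂ A} (r : ℝ) (u : EE A) (g : annih J) :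
    TT r u g = ((r : ℂ))⁻¹ • u (g : Du A) := rfl

lemma TT_norm {J : Submodule ℂ A} (r : ℝ) (hr : 0 ≤ r) (u : EE A) (g : annih J) :
    ‖TT r u g‖ = r⁻¹ * ‖u (g : Du A)‖ := by
  rw [TT_apply, norm_smul, norm_inv, Complex.norm_real, Real.norm_of_nonneg hr]

lemma est1 {u0 : EE A} {K : ℝ} (hK0 : 0 ≤ K) (hK : ∀ a, ‖LE a u0 - RE a u0‖ ≤ K * ‖a‖)
    {Y : Finset A} {C : ℝ} (hC : 0 ≤ C)
    (hYC : ∀ f : Du A, ‖u0 f‖ ≤ 1 * ‖f‖ + C * ∑ y ∈ Y, ‖f y‖)
    {a : A} {ra : ℝ} (ha : ‖a‖ ≤ ra) {f : Du A} {C1 : ℝ} (hf : ‖f‖ ≤ C1)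
    (hfY : ∀ y ∈ Y, f y = 0) (h0 : Du A)
    (hy : ∀ y ∈ Y, ‖(h0 - la a f) y‖ ≤ 1 / (C * Y.card + 1)) :
    ‖u0 h0‖ ≤ K * ra * C1 + ra * C1 + (‖h0‖ + ra * C1) + 1 := by
  have hra : 0 ≤ ra := (norm_nonneg _).trans ha
  have hC1 : 0 ≤ C1 := (norm_nonneg _).trans hf
  have huf : ‖u0 f‖ ≤ C1 := by
    have := hYC f
    have hz : ∑ y ∈ Y, ‖f y‖ = 0 := Finset.sum_eq_zero fun y hy => by rw [hfY y hy, norm_zero]
    rw [hz, mul_zero, add_zero, one_mul] at this
    exact this.trans hf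
  have hterm1 : ‖u0 (la a f)‖ ≤ K * ra * C1 + ra * C1 := by
    have e : u0 (la a f) = a * u0 f - (LE a u0 - RE a u0) f := by
      rw [EE.sub_apply, LE_apply, RE_apply]; abel
    rw [e]
    calc ‖a * u0 f - (LE a u0 - RE a u0) f‖
        ≤ ‖a * u0 f‖ + ‖(LE a u0 - RE a u0) f‖ := norm_sub_le _ _
      _ ≤ ‖a‖ * ‖u0 f‖ + ‖LE a u0 - RE a u0‖ * ‖f‖ :=
        add_le_add (norm_mul_le _ _) (EE.le_norm _ _)
      _ ≤ ra * C1 + (K * ra) * C1 := by
        have h6 : ‖LE a u0 - RE a u0‖ ≤ K * ra :=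
          (hK a).trans (mul_le_mul_of_nonneg_left ha hK0)
        exact add_le_add (mul_le_mul ha huf (norm_nonneg _) hra)
          (mul_le_mul h6 hf (norm_nonneg _) (mul_nonneg hK0 hra))
      _ = _ := by ring
  have hterm2 : ‖u0 (h0 - la a f)‖ ≤ (‖h0‖ + ra * C1) + 1 := by
    refine (hYC _).trans ?_
    rw [one_mul]
    refine add_le_add ?_ ?_
    · refine (norm_sub_le _ _).trans (add_le_add le_rfl ?_)
      exact (la_norm _ _).trans (mul_le_mul ha hf (norm_nonneg _) hra)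
    · have hden : 0 < C * Y.card + 1 := by positivity
      calc C * ∑ y ∈ Y, ‖(h0 - la a f) y‖ ≤ C * ∑ y ∈ Y, 1 / (C * Y.card + 1) :=
            mul_le_mul_of_nonneg_left (Finset.sum_le_sum hy) hC
        _ = (C * Y.card) / (C * Y.card + 1) := by
            rw [Finset.sum_const, nsmul_eq_mul]; ring
        _ ≤ 1 := by
            rw [div_le_one hden]; linarith
  have e : u0 h0 = u0 (la a f) + u0 (h0 - la a f) := by
    rw [map_sub]; abel
  rw [e]
  refine (norm_add_le _ _).trans ?_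
  linarith

lemma est2 {f : Du A} {C1 D : ℝ} (hD : 0 < D) (hC1 : 0 ≤ C1) (hf : ‖f‖ ≤ C1) {p q : A}
    (hp : ‖p‖ < 1 / D / (2 * (C1 + 1))) (hq : ‖q‖ < 1 / D / (2 * (C1 + 1))) :
    ‖f p + f q‖ ≤ 1 / D := by
  have hη : 0 ≤ 1 / D / (2 * (C1 + 1)) := (norm_nonneg _).trans hp.le
  calc ‖f p + f q‖ ≤ ‖f p‖ + ‖f q‖ := norm_add_le _ _
    _ ≤ C1 * (1 / D / (2 * (C1 + 1))) + C1 * (1 / D / (2 * (C1 + 1))) :=
      add_le_add ((Du.le_norm _ _).trans (mul_le_mul hf hp.le (norm_nonneg _) hC1))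
        ((Du.le_norm _ _).trans (mul_le_mul hf hq.le (norm_nonneg _) hC1))
    _ = (C1 / (C1 + 1)) * (1 / D) := by field_simp; ring
    _ ≤ 1 * (1 / D) := by
      gcongr
      rw [div_le_one (by positivity)]; linarith
    _ = _ := one_mul _

theorem bounded_right (h : UBAC A) {J : Submodule ℂ A}
    (hJ : ∀ a x : A, x ∈ J → a * x ∈ J ∧ x * a ∈ J)
    (hcl : IsClosed (J : Set A)) (hfd : FiniteDimensional ℂ (A ⧸ J))
    (hleft : ∀ y ∈ J, ∀ ε : ℝ, 0 < ε → ∃ e ∈ J, ‖e * y - y‖ < ε) :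
    ∃ C : ℝ, ∀ G : Finset A, (∀ x ∈ G, x ∈ J) → ∀ ε : ℝ, 0 < ε →
      ∃ w ∈ J, ‖w‖ ≤ C ∧ ∀ x ∈ G, ‖x * w - x‖ < ε := by
  classical
  obtain ⟨d⟩ := exists_dat J hcl hfd
  have hNfd : FiniteDimensional ℂ (annih J) := annih_fd d
  obtain ⟨t, K, hK0, ht, hu⟩ := d.exists_u h hJ hcl
  choose u hu1 hu2 hu3 hu4 using fun i : Finset A × ℕ =>
    hu i.1 (1 / ((i.2 : ℝ) + 1)) (by positivity)
  obtain ⟨n, hn⟩ : ∃ n : Finset A × ℕ → ℝ, ∀ i, n i = ∑ k, ‖u i (d.F k)‖ := ⟨_, fun _ => rfl⟩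
  have hn0 : ∀ i, 0 ≤ n i := fun i => by
    rw [hn]; exact Finset.sum_nonneg fun _ _ => norm_nonneg _
  have hnk : ∀ i k, ‖u i (d.F k)‖ ≤ n i := fun i k => by
    rw [hn]
    exact Finset.single_le_sum (f := fun k => ‖u i (d.F k)‖) (fun _ _ => norm_nonneg _)
      (Finset.mem_univ k)
  -- convergence of commutators
  have had : ∀ a : A, Tendsto (fun i => ‖LE a (u i) - RE a (u i)‖) atTop (𝓝 0) := by
    intro a
    rw [Metric.tendsto_nhds]
    intro ε hε
    obtain ⟨m, hm⟩ := exists_nat_one_div_lt hε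
    filter_upwards [eventually_ge_atTop (({a} : Finset A), m)] with i hi
    rw [Real.dist_eq, sub_zero, abs_of_nonneg (norm_nonneg _)]
    have ha : a ∈ i.1 := hi.1 (Finset.mem_singleton_self a)
    refine (hu4 i a ha).trans_le (le_trans ?_ hm.le)
    have : m ≤ i.2 := hi.2
    gcongr
  suffices hclaim : ∃ C : ℝ, ∃ᶠ i in (atTop : Filter (Finset A × ℕ)), n i ≤ C by
    obtain ⟨C, hC⟩ := hclaim
    have hS : 0 ≤ ∑ k, ‖d.F k‖ * ‖d.c k‖ := Finset.sum_nonneg fun _ _ => by positivity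
    refine ⟨‖(1 : A)‖ + C * ∑ k, ‖d.c k‖, fun G hG ε hε => ?_⟩
    obtain ⟨m, hm⟩ := exists_nat_one_div_lt
      (show 0 < ε / (∑ k, ‖d.F k‖ * ‖d.c k‖ + 1) by positivity)
    obtain ⟨i, hi, hiC⟩ := (frequently_atTop.1 hC) (G, m)
    refine ⟨1 - d.Psi (u i), d.one_sub_mem hJ ht (hu2 i), ?_, fun x hx => ?_⟩
    · refine (norm_sub_le _ _).trans ?_
      gcongr
      rw [d.Psi_apply, Finset.mul_sum]
      refine (norm_sum_le _ _).trans (Finset.sum_le_sum fun k _ => ?_)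
      refine (norm_mul_le _ _).trans ?_
      gcongr
      exact (hnk i k).trans hiC
    · have hxi : x ∈ i.1 := hi.1 hx
      calc ‖x * (1 - d.Psi (u i)) - x‖ ≤ ‖LE x (u i) - RE x (u i)‖ * ∑ k, ‖d.F k‖ * ‖d.c k‖ :=
            d.approx_right hJ (hG x hx)
        _ ≤ (ε / (∑ k, ‖d.F k‖ * ‖d.c k‖ + 1)) * ∑ k, ‖d.F k‖ * ‖d.c k‖ := by
          gcongr
          refine (hu4 i x hxi).le.trans (le_trans ?_ hm.le)
          have : m ≤ i.2 := hi.2
          gcongr
        _ < ε := by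
          rw [div_mul_eq_mul_div, div_lt_iff₀ (by positivity)]
          nlinarith
  by_contra hcon
  push Not at hcon
  let V : Ultrafilter (Finset A × ℕ) := Ultrafilter.of atTop
  have hV : (V : Filter (Finset A × ℕ)) ≤ atTop := Ultrafilter.of_le _
  have hnV : Tendsto n V atTop := by
    rw [tendsto_atTop]
    intro C
    have := (hcon C).filter_mono hV
    filter_upwards [this] with i hi using hi.le
  have hnpos : ∀ᶠ i in (V : Filter (Finset A × ℕ)), 0 < n i := hnV.eventually_gt_atTop 0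
  have hninv : Tendsto (fun i => (n i)⁻¹) V (𝓝 0) := hnV.inv_tendsto_atTop
  have hadV : ∀ a : A, Tendsto (fun i => ‖LE a (u i) - RE a (u i)‖) V (𝓝 0) := fun a =>
    (had a).mono_left hV
  let T : Finset A × ℕ → annih J →ₗ[ℂ] A := fun i => TT (n i) (u i)
  obtain ⟨M, hMdef⟩ : ∃ M : ℝ, M = ∑ k, ‖d.c k‖ := ⟨_, rfl⟩
  have hM0 : 0 ≤ M := by rw [hMdef]; exact Finset.sum_nonneg fun _ _ => norm_nonneg _
  have hMb : ∀ i (g : annih J), ‖T i g‖ ≤ M * ‖g‖ := by
    intro i g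
    have h1 : ‖u i (g : Du A)‖ ≤ n i * (M * ‖g‖) := by
      have e := d.expand g.2
      have e2 : u i (g : Du A) = ∑ k, (g : Du A) (d.c k) • u i (d.F k) := by
        conv_lhs => rw [e]
        simp only [map_sum, map_smul]
      rw [e2, hMdef, Finset.sum_mul, Finset.mul_sum]
      refine (norm_sum_le _ _).trans (Finset.sum_le_sum fun k _ => ?_)
      rw [norm_smul]
      calc ‖(g : Du A) (d.c k)‖ * ‖u i (d.F k)‖ ≤ (‖(g : Du A)‖ * ‖d.c k‖) * n i := by
            gcongr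
            · exact Du.le_norm _ _
            · exact hnk i k
        _ = n i * (‖d.c k‖ * ‖g‖) := by
            rw [Submodule.coe_norm]; ring
    change ‖TT (n i) (u i) g‖ ≤ _
    rw [TT_norm _ (hn0 i)]
    rcases (hn0 i).eq_or_lt with h0 | h0
    · rw [← h0, inv_zero, zero_mul]; positivity
    · rw [inv_mul_le_iff₀ h0]; exact h1
  -- separation
  have hmodJ : ∀ (g : annih J) (b : A), b ∈ J → Tendsto (fun i => b * T i g) V (𝓝 0) := by
    intro g b hb
    rw [tendsto_zero_iff_norm_tendsto_zero]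
    have hb1 : ∀ i, ‖b * T i g‖ ≤ (n i)⁻¹ * (‖LE b (u i) - RE b (u i)‖ * ‖(g : Du A)‖) := by
      intro i
      have e : b * T i g = ((n i : ℂ))⁻¹ • ((LE b (u i) - RE b (u i)) (g : Du A)) := by
        rw [EE.sub_apply, LE_apply, RE_apply, Dat.la_mem hJ g.2 hb, map_zero, sub_zero]
        change b * (((n i : ℂ))⁻¹ • u i (g : Du A)) = _
        rw [mul_smul_comm]
      rw [e, norm_smul, norm_inv, Complex.norm_real, Real.norm_of_nonneg (hn0 i)]
      have := inv_nonneg.2 (hn0 i)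
      gcongr
      exact EE.le_norm _ _
    refine squeeze_zero (fun i => norm_nonneg _) hb1 ?_
    have := hninv.mul ((hadV b).mul_const ‖(g : Du A)‖)
    simpa using this
  have hmod : ∀ (g : annih J) (a : A),
      Tendsto (fun i => a * T i g - T i (lN hJ a g)) V (𝓝 0) := by
    intro g a
    rw [tendsto_zero_iff_norm_tendsto_zero]
    have hb1 : ∀ i, ‖a * T i g - T i (lN hJ a g)‖
        ≤ (n i)⁻¹ * (‖LE a (u i) - RE a (u i)‖ * ‖(g : Du A)‖) := by
      intro i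
      have e : a * T i g - T i (lN hJ a g)
          = ((n i : ℂ))⁻¹ • ((LE a (u i) - RE a (u i)) (g : Du A)) := by
        rw [EE.sub_apply, LE_apply, RE_apply, smul_sub]
        change a * (((n i : ℂ))⁻¹ • u i (g : Du A)) - ((n i : ℂ))⁻¹ • u i (la a (g : Du A)) = _
        rw [mul_smul_comm]
      rw [e, norm_smul, norm_inv, Complex.norm_real, Real.norm_of_nonneg (hn0 i)]
      have := inv_nonneg.2 (hn0 i)
      gcongr
      exact EE.le_norm _ _
    refine squeeze_zero (fun i => norm_nonneg _) hb1 ?_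
    have := hninv.mul ((hadV a).mul_const ‖(g : Du A)‖)
    simpa using this
  have hsep0 : ∀ (g : annih J) (y : A), Tendsto (fun i => T i g) V (𝓝 y) → y = 0 := by
    intro g y hy
    -- `y` lies in `J`
    have hyJ : y ∈ J := by
      have h1 : Tendsto (fun i => T i g - ((n i : ℂ))⁻¹ • t (g : Du A)) V (𝓝 (y - 0)) := by
        refine hy.sub ?_
        rw [tendsto_zero_iff_norm_tendsto_zero]
        have e : ∀ i, ‖((n i : ℂ))⁻¹ • t (g : Du A)‖ = (n i)⁻¹ * ‖t (g : Du A)‖ := by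
          intro i
          rw [norm_smul, norm_inv, Complex.norm_real, Real.norm_of_nonneg (hn0 i)]
        simp only [e]
        simpa using hninv.mul_const ‖t (g : Du A)‖
      rw [sub_zero] at h1
      refine hcl.mem_of_tendsto h1 (Eventually.of_forall fun i => ?_)
      have e : T i g - ((n i : ℂ))⁻¹ • t (g : Du A) = ((n i : ℂ))⁻¹ • ((u i - t) (g : Du A)) := by
        rw [EE.sub_apply, smul_sub]; rfl
      rw [e]
      exact J.smul_mem _ (d.XJ_vanish hJ (hu2 i) g.2)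
    have hbz : ∀ b ∈ J, b * y = 0 := by
      intro b hb
      have h1 : Tendsto (fun i => b * T i g) V (𝓝 (b * y)) := hy.const_mul b
      exact tendsto_nhds_unique h1 (hmodJ g b hb)
    by_contra hy0
    obtain ⟨e, he, he2⟩ := hleft y hyJ ‖y‖ (norm_pos_iff.2 hy0)
    rw [hbz e he, zero_sub, norm_neg] at he2
    exact lt_irrefl _ he2
  -- the submodule of functionals whose images tend to zero
  let N0 : Submodule ℂ (annih J) :=
    { carrier := {g | Tendsto (fun i => T i g) V (𝓝 0)}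
      zero_mem' := by
        change Tendsto (fun i => T i 0) V (𝓝 0)
        simp only [map_zero]; exact tendsto_const_nhds
      add_mem' := by
        intro f g hf hg
        change Tendsto (fun i => T i (f + g)) V (𝓝 0)
        simp only [map_add]
        simpa using Tendsto.add (f := fun i => T i f) hf hg
      smul_mem' := by
        intro c f hf
        change Tendsto (fun i => T i (c • f)) V (𝓝 0)
        simp only [map_smul]
        simpa using Tendsto.const_smul (f := fun i => T i f) hf c }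
  have memN0 : ∀ g, g ∈ N0 ↔ Tendsto (fun i => T i g) V (𝓝 0) := fun g => Iff.rfl
  obtain ⟨W, hW⟩ := N0.exists_isCompl
  have hN0l : ∀ (a : A) (g : annih J), g ∈ N0 → lN hJ a g ∈ N0 := by
    intro a g hg
    rw [memN0] at *
    have h1 := hmod g a
    have h2 : Tendsto (fun i => a * T i g) V (𝓝 (a * 0)) := hg.const_mul a
    have h3 := h2.sub h1
    simpa using h3
  have hbddN0 : ∀ g : annih J, (∃ B : ℝ, ∀ i, ‖u i (g : Du A)‖ ≤ B) → g ∈ N0 := by
    rintro g ⟨B, hB⟩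
    rw [memN0, tendsto_zero_iff_norm_tendsto_zero]
    refine squeeze_zero (g := fun i => (n i)⁻¹ * B) (fun i => norm_nonneg _) (fun i => ?_) ?_
    · change ‖TT (n i) (u i) g‖ ≤ _
      rw [TT_norm _ (hn0 i)]
      have := inv_nonneg.2 (hn0 i)
      gcongr
      exact hB i
    · simpa using hninv.mul_const B
  -- the key boundedness statement
  have key : ∀ (l : annih J →ₗ[ℂ] ℂ), (∀ g ∈ N0, l g = 0) → ∀ g0 : annih J,
      ∃ hh : annih J, hh ∈ N0 ∧ ∀ x : A, (hh : Du A) x = l (lN hJ x g0) := by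
    intro l hl g0
    obtain ⟨c, hc0, hc⟩ : ∃ c : ℝ, 0 ≤ c ∧ ∀ g, ‖l g‖ ≤ c * ‖g‖ :=
      ⟨‖LinearMap.toContinuousLinearMap l‖, ContinuousLinearMap.opNorm_nonneg _,
        fun g => (LinearMap.toContinuousLinearMap l).le_opNorm g⟩
    let hlin : A →ₗ[ℂ] ℂ :=
      { toFun := fun x => l (lN hJ x g0)
        map_add' := by
          intro x y
          have : lN hJ (x + y) g0 = lN hJ x g0 + lN hJ y g0 := by
            ext1; change la (x + y) (g0 : Du A) = la x (g0 : Du A) + la y (g0 : Du A)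
            rw [map_add]; rfl
          rw [this, map_add]
        map_smul' := by
          intro r x
          have : lN hJ (r • x) g0 = r • lN hJ x g0 := by
            ext1; change la (r • x) (g0 : Du A) = r • la x (g0 : Du A)
            rw [map_smul]; rfl
          rw [this, map_smul, RingHom.id_apply] }
    have hlinb : ∀ x, ‖hlin x‖ ≤ c * ‖g0‖ * ‖x‖ := by
      intro x
      calc ‖hlin x‖ ≤ c * ‖lN hJ x g0‖ := hc _
        _ ≤ c * (‖x‖ * ‖(g0 : Du A)‖) := by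
          gcongr
          exact la_norm x (g0 : Du A)
        _ = c * ‖g0‖ * ‖x‖ := by rw [Submodule.coe_norm]; ring
    let h0 : Du A := Du.mk hlin (c * ‖g0‖) hlinb
    have h0v : ∀ x, h0 x = l (lN hJ x g0) := fun x => rfl
    have h0J : h0 ∈ annih J := by
      intro x hx
      rw [h0v]
      have : lN hJ x g0 = 0 := by ext1; exact Dat.la_mem hJ g0.2 hx
      rw [this, map_zero]
    refine ⟨⟨h0, h0J⟩, hbddN0 _ ?_, h0v⟩
    -- apply the lemmas on the complement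
    let TW : Finset A × ℕ → W →ₗ[ℂ] A := fun i => (T i).comp W.subtype
    have hMW : ∀ i (w : W), ‖TW i w‖ ≤ M * ‖w‖ := fun i w => hMb i w
    have hsepW : ∀ w : W, w ≠ 0 → ∀ y : A, ¬ Tendsto (fun i => TW i w) V (𝓝 y) := by
      intro w hw y hy
      have hy0 : y = 0 := hsep0 (w : annih J) y hy
      rw [hy0] at hy
      have h1 : (w : annih J) ∈ N0 := hy
      have h2 : (w : annih J) ∈ N0 ⊓ W := ⟨h1, w.2⟩
      rw [hW.inf_eq_bot, Submodule.mem_bot] at h2
      exact hw (by ext1; exact h2)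
    obtain ⟨dd, hdd, hP⟩ := lemP V TW M hMW hsepW
    obtain ⟨C1, hC1def⟩ : ∃ C1 : ℝ, C1 = c / (dd / 2) := ⟨_, rfl⟩
    have hC1 : 0 ≤ C1 := by rw [hC1def]; exact div_nonneg hc0 (half_pos hdd).le
    refine ⟨K * (M * ‖g0‖) * C1 + M * ‖g0‖ * C1 + (‖h0‖ + M * ‖g0‖ * C1) + 1, fun i0 => ?_⟩
    obtain ⟨Y, C, hC, hYC⟩ := hu1 i0 1 one_pos
    -- decompositions
    have hdec : ∀ y : A, ∃ n0 ∈ N0, ∃ w ∈ W, n0 + w = lN hJ y g0 := by
      intro y
      have : lN hJ y g0 ∈ N0 ⊔ W := by rw [hW.sup_eq_top]; trivial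
      exact Submodule.mem_sup.1 this
    choose n0 hn0N w0 hw0W hnw using hdec
    have hDpos : 0 < C * (Y.card : ℝ) + 1 :=
      add_pos_of_nonneg_of_pos (mul_nonneg hC (Nat.cast_nonneg _)) one_pos
    have hη : 0 < 1 / (C * (Y.card : ℝ) + 1) / (2 * (C1 + 1)) :=
      div_pos (div_pos one_pos hDpos) (mul_pos two_pos (add_pos_of_nonneg_of_pos hC1 one_pos))
    have ev1 : ∀ᶠ j in (V : Filter (Finset A × ℕ)), ∀ y ∈ Y,
        ‖T j (n0 y)‖ < 1 / (C * (Y.card : ℝ) + 1) / (2 * (C1 + 1)) := by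
      rw [Filter.eventually_all_finset]
      intro y _
      have := (memN0 _).1 (hn0N y)
      rw [tendsto_zero_iff_norm_tendsto_zero] at this
      exact this.eventually_lt_const hη
    have ev2 : ∀ᶠ j in (V : Filter (Finset A × ℕ)), ∀ y ∈ Y,
        ‖y * T j g0 - T j (lN hJ y g0)‖ < 1 / (C * (Y.card : ℝ) + 1) / (2 * (C1 + 1)) := by
      rw [Filter.eventually_all_finset]
      intro y _
      have := hmod g0 y
      rw [tendsto_zero_iff_norm_tendsto_zero] at this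
      exact this.eventually_lt_const hη
    have ev3 := lemQ V TW M hMW dd hdd hP (Submodule.span ℂ (Y : Set A))
    obtain ⟨j, hj1, hj2, hj3⟩ := (ev1.and (ev2.and ev3)).exists
    obtain ⟨f, hf1, hf2, hf3⟩ := lemR (TW j) (dd / 2) (half_pos hdd) _ hj3 (l.comp W.subtype) c hc0
      (fun w => hc w)
    rw [← hC1def] at hf1
    let f' : Du A := f
    have hf1' : ‖f'‖ ≤ C1 := hf1
    have hf2' : ∀ w (hw : w ∈ W), f' (T j w) = l w := fun w hw => hf2 ⟨w, hw⟩
    have hf3' : ∀ y ∈ Y, f' y = 0 := fun y hy => hf3 y (Submodule.subset_span hy)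
    refine est1 hK0 (hu3 i0) hC hYC (hMb j g0) hf1' hf3' h0 ?_
    intro y hyY
    rw [Du.sub_apply, la_apply, h0v]
    have e1 : l (lN hJ y g0) = f' (T j (w0 y)) := by
      rw [hf2' _ (hw0W y), ← hnw y, map_add, hl _ (hn0N y), zero_add]
    have e2 : T j (w0 y) = T j (lN hJ y g0) - T j (n0 y) := by
      rw [← hnw y, map_add]; abel
    have e3 : l (lN hJ y g0) - f' (y * T j g0)
        = -(f' (T j (n0 y)) + f' (y * T j g0 - T j (lN hJ y g0))) := by
      rw [e1, e2, map_sub, map_sub]; ring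
    rw [e3, norm_neg]
    exact est2 hDpos hC1 hf1' (hj1 y hyY) (hj2 y hyY)
  -- the ideal `I`
  let I : Submodule ℂ A :=
    { carrier := {x | ∀ g : annih J, lN hJ x g ∈ N0}
      zero_mem' := by
        intro g
        have : lN hJ 0 g = 0 := by
          ext1; change la 0 (g : Du A) = 0; rw [map_zero]; rfl
        rw [this]; exact N0.zero_mem
      add_mem' := by
        intro x y hx hy g
        have : lN hJ (x + y) g = lN hJ x g + lN hJ y g := by
          ext1; change la (x + y) (g : Du A) = la x (g : Du A) + la y (g : Du A)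
          rw [map_add]; rfl
        rw [this]; exact N0.add_mem (hx g) (hy g)
      smul_mem' := by
        intro r x hx g
        have : lN hJ (r • x) g = r • lN hJ x g := by
          ext1; change la (r • x) (g : Du A) = r • la x (g : Du A)
          rw [map_smul]; rfl
        rw [this]; exact N0.smul_mem _ (hx g) }
  have memI : ∀ x, x ∈ I ↔ ∀ g : annih J, lN hJ x g ∈ N0 := fun x => Iff.rfl
  have hImul : ∀ a x : A, x ∈ I → a * x ∈ I ∧ x * a ∈ I := by
    intro a x hx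
    constructor
    · intro g
      have : lN hJ (a * x) g = lN hJ a (lN hJ x g) := by ext1; exact la_mul a x _
      rw [this]; exact hN0l a _ (hx g)
    · intro g
      have : lN hJ (x * a) g = lN hJ x (lN hJ a g) := by ext1; exact la_mul x a _
      rw [this]; exact hx _
  have hJI : J ≤ I := by
    intro x hx g
    have : lN hJ x g = 0 := by ext1; exact Dat.la_mem hJ g.2 hx
    rw [this]; exact N0.zero_mem
  have hIcl : IsClosed (I : Set A) := by
    have hN0cl : IsClosed (N0 : Set (annih J)) := N0.closed_of_finiteDimensional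
    have : (I : Set A) = ⋂ g : annih J, (fun x => lN hJ x g) ⁻¹' (N0 : Set (annih J)) := by
      ext x; simp [memI]
    rw [this]
    refine isClosed_iInter fun g => hN0cl.preimage ?_
    refine Continuous.subtype_mk ?_ _
    exact ((la : A →L[ℂ] Du A →L[ℂ] Du A).flip (g : Du A)).continuous
  have hIfd : FiniteDimensional ℂ (A ⧸ I) :=
    Module.Finite.of_surjective (Submodule.factor hJI) (Submodule.factor_surjective hJI)
  -- elements killed by `N0` lie in `J`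
  have hQ : ∀ x : A, (∀ f ∈ N0, (f : Du A) x = 0) → x ∈ J := by
    intro x hx
    have hxI : x ∈ I := by
      intro g
      by_contra hg
      obtain ⟨l, hl1, hl2⟩ := Submodule.exists_le_ker_of_notMem hg
      obtain ⟨hh, hh1, hh2⟩ := key l (fun g hg => by
        have := hl2 hg
        exact this) g
      exact hl1 (by rw [← hh2 x]; exact hx _ hh1)
    rw [d.mem_iff]
    intro k
    by_contra hk
    have hpos : 0 < ‖d.F k x‖ := norm_pos_iff.2 hk
    have hx' : ∃ w ∈ I, ∀ z ∈ ({x} : Finset A), ‖z * w - z‖ < ‖d.F k x‖ / (‖d.F k‖ + 1) :=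
      right_ai h hImul hIcl hIfd {x} (by simpa using hxI) _ (by positivity)
    obtain ⟨w, hwI, hw⟩ := hx'
    have hw := hw x (Finset.mem_singleton_self x)
    have e1 : d.F k (x * w) = 0 := by
      have := hx _ (hwI ⟨d.F k, d.hF k⟩)
      exact this
    have e2 : ‖d.F k x‖ ≤ ‖d.F k‖ * ‖x * w - x‖ := by
      have : d.F k x = - d.F k (x * w - x) := by rw [map_sub, e1]; ring
      rw [this, norm_neg]; exact Du.le_norm _ _
    have e3 : ‖d.F k‖ * ‖x * w - x‖ ≤ ‖d.F k‖ * (‖d.F k x‖ / (‖d.F k‖ + 1)) := by gcongr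
    have e4 : ‖d.F k‖ * (‖d.F k x‖ / (‖d.F k‖ + 1)) < ‖d.F k x‖ := by
      rw [mul_div_assoc', div_lt_iff₀ (by positivity)]
      nlinarith [norm_nonneg (d.F k)]
    linarith
  -- hence `N0` is everything
  have hN0top : ∀ g : annih J, g ∈ N0 := by
    intro g
    by_contra hg
    obtain ⟨l, hl1, hl2⟩ := Submodule.exists_le_ker_of_notMem hg
    let x : A := ∑ k, l ⟨d.F k, d.hF k⟩ • d.c k
    have hlx : ∀ g : annih J, (g : Du A) x = l g := by
      intro g
      have e : g = ∑ k, (g : Du A) (d.c k) • (⟨d.F k, d.hF k⟩ : annih J) := by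
        ext1
        rw [Submodule.coe_sum]
        exact d.expand g.2
      conv_rhs => rw [e]
      simp only [x, map_sum, map_smul, smul_eq_mul]
      exact Finset.sum_congr rfl fun k _ => mul_comm _ _
    have hxJ : x ∈ J := hQ x fun f hf => by
      rw [hlx f]; exact hl2 hf
    exact hl1 (by rw [← hlx g]; exact g.2 x hxJ)
  -- contradiction with the normalisation
  have hsum : Tendsto (fun i => ∑ k, ‖T i ⟨d.F k, d.hF k⟩‖) V (𝓝 0) := by
    have : Tendsto (fun i => ∑ k, ‖T i ⟨d.F k, d.hF k⟩‖) V (𝓝 (∑ _k : Fin d.n, (0 : ℝ))) :=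
      tendsto_finsetSum _ fun k _ => by
        have := (memN0 _).1 (hN0top ⟨d.F k, d.hF k⟩)
        rwa [tendsto_zero_iff_norm_tendsto_zero] at this
    simpa using this
  have hsum1 : ∀ᶠ i in (V : Filter (Finset A × ℕ)), ∑ k, ‖T i ⟨d.F k, d.hF k⟩‖ = 1 := by
    filter_upwards [hnpos] with i hi
    have : ∀ k, ‖T i ⟨d.F k, d.hF k⟩‖ = (n i)⁻¹ * ‖u i (d.F k)‖ := fun k =>
      TT_norm _ (hn0 i) _ _
    simp only [this]
    rw [← Finset.mul_sum, ← hn i, inv_mul_cancel₀ hi.ne']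
  have := tendsto_nhds_unique hsum (tendsto_const_nhds.congr' (by
    filter_upwards [hsum1] with i hi using hi.symm))
  exact zero_ne_one this

end main


end Pool.Agent.Helper629.BAC
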