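import Pool.Agent.Helper629.BAC

set_option autoImplicit false
set_option linter.unusedSectionVars false

namespace Pool.Agent.Helper629.BAC

open scoped Topology
open Filter

section final

variable {A : Type} [NormedRing A] [NormedAlgebra ℂ A] [CompleteSpace A]

open MulOpposite

/-- the property passes to the opposite algebra -/
lemma ubac_op (h : UBAC A) : UBAC Aᵐᵒᵖ := by
  intro X _ _ _ L R hL1 hR1 hL hR hLR D hD
  let e : A →L[ℂ] Aᵐᵒᵖ := (opContinuousLinearEquiv ℂ : A ≃L[ℂ] Aᵐᵒᵖ)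
  have he : ∀ a, e a = op a := fun a => rfl
  obtain ⟨C, hC⟩ := h X (R.comp e) (L.comp e)
    (fun x => by simpa [he] using hR1 x) (fun x => by simpa [he] using hL1 x)
    (by
      intro a b
      simp only [ContinuousLinearMap.comp_apply, he, op_mul]
      exact hR _ _)
    (by
      intro a b
      simp only [ContinuousLinearMap.comp_apply, he, op_mul]
      exact hL _ _)
    (by
      intro a b
      simp only [ContinuousLinearMap.comp_apply, he]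
      exact (hLR _ _).symm)
    (D.comp e)
    (by
      intro a b
      simp only [ContinuousLinearMap.comp_apply, he, op_mul]
      rw [hD, add_comm])
  refine ⟨C, fun F ε hε => ?_⟩
  classical
  obtain ⟨ξ, h1, h2⟩ := hC (F.image unop) ε hε
  refine ⟨-ξ, fun a => ?_, fun a ha => ?_⟩
  · have := h1 (unop a)
    simp only [ContinuousLinearMap.comp_apply, he, op_unop] at this
    rw [map_neg, map_neg, neg_sub_neg]
    exact this
  · have := h2 (unop a) (Finset.mem_image_of_mem _ ha)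
    simp only [ContinuousLinearMap.comp_apply, he, op_unop] at this
    rw [map_neg, map_neg, neg_sub_neg]
    exact this

/-- the image of an ideal in the opposite algebra -/
noncomputable def opJ (J : Submodule ℂ A) : Submodule ℂ Aᵐᵒᵖ :=
  J.comap ((opLinearEquiv ℂ : A ≃ₗ[ℂ] Aᵐᵒᵖ).symm : Aᵐᵒᵖ →ₗ[ℂ] A)

lemma mem_opJ (J : Submodule ℂ A) (x : Aᵐᵒᵖ) : x ∈ opJ J ↔ unop x ∈ J := Iff.rfl

lemma opJ_fd (J : Submodule ℂ A) (hfd : FiniteDimensional ℂ (A ⧸ J)) :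
    FiniteDimensional ℂ (Aᵐᵒᵖ ⧸ opJ J) := by
  let f : A ⧸ J →ₗ[ℂ] Aᵐᵒᵖ ⧸ opJ J :=
    J.mapQ (opJ J) ((opLinearEquiv ℂ : A ≃ₗ[ℂ] Aᵐᵒᵖ) : A →ₗ[ℂ] Aᵐᵒᵖ) (by
      intro x hx
      exact hx)
  refine Module.Finite.of_surjective f ?_
  intro y
  obtain ⟨z, rfl⟩ := Submodule.Quotient.mk_surjective _ y
  exact ⟨Submodule.Quotient.mk (unop z), rfl⟩

theorem two_sided (h : UBAC A) {J : Submodule ℂ A}
    (hJ : ∀ a x : A, x ∈ J → a * x ∈ J ∧ x * a ∈ J)
    (hcl : IsClosed (J : Set A)) (hfd : FiniteDimensional ℂ (A ⧸ J)) :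
    ∃ C : ℝ, ∀ F : Finset A, (∀ x ∈ F, x ∈ J) → ∀ ε : ℝ, 0 < ε →
      ∃ e ∈ J, ‖e‖ ≤ C ∧ ∀ x ∈ F, ‖e * x - x‖ < ε ∧ ‖x * e - x‖ < ε := by
  classical
  have hop := ubac_op h
  have hJop : ∀ a x : Aᵐᵒᵖ, x ∈ opJ J → a * x ∈ opJ J ∧ x * a ∈ opJ J := by
    intro a x hx
    rw [mem_opJ] at *
    exact ⟨(hJ (unop a) (unop x) hx).2, (hJ (unop a) (unop x) hx).1⟩
  have hclop : IsClosed (opJ J : Set Aᵐᵒᵖ) := hcl.preimage continuous_unop
  have hfdop := opJ_fd J hfd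
  -- unbounded one-sided approximate identities
  have hleft : ∀ y ∈ J, ∀ ε : ℝ, 0 < ε → ∃ e ∈ J, ‖e * y - y‖ < ε := by
    intro y hy ε hε
    obtain ⟨w, hw, hw2⟩ := right_ai hop hJop hclop hfdop {op y} (by simpa [mem_opJ] using hy) ε hε
    refine ⟨unop w, hw, ?_⟩
    have := hw2 (op y) (Finset.mem_singleton_self _)
    exact this
  have hleftop : ∀ y ∈ opJ J, ∀ ε : ℝ, 0 < ε → ∃ e ∈ opJ J, ‖e * y - y‖ < ε := by
    intro y hy ε hε
    obtain ⟨w, hw, hw2⟩ := right_ai h hJ hcl hfd {unop y} (by simpa [mem_opJ] using hy) ε hε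
    refine ⟨op w, hw, ?_⟩
    have := hw2 (unop y) (Finset.mem_singleton_self _)
    exact this
  obtain ⟨C1, hC1⟩ := bounded_right h hJ hcl hfd hleft
  obtain ⟨C2, hC2⟩ := bounded_right hop hJop hclop hfdop hleftop
  refine ⟨C1 + C2 + C1 * C2, fun F hF ε hε => ?_⟩
  have hC10 : 0 ≤ C1 := by
    obtain ⟨w, _, hw, _⟩ := hC1 ∅ (by simp) 1 one_pos
    exact (norm_nonneg _).trans hw
  have hC20 : 0 ≤ C2 := by
    obtain ⟨w, _, hw, _⟩ := hC2 ∅ (by simp) 1 one_pos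
    exact (norm_nonneg _).trans hw
  obtain ⟨r, hrJ, hr1, hr2⟩ := hC1 F hF (ε / (C1 + C2 + 2)) (by positivity)
  obtain ⟨l', hlJ, hl1, hl2⟩ := hC2 (F.image op) (by
    intro x hx
    obtain ⟨z, hz, rfl⟩ := Finset.mem_image.1 hx
    exact hF z hz) (ε / (C1 + C2 + 2)) (by positivity)
  obtain ⟨l, rfl⟩ : ∃ l : A, op l = l' := ⟨unop l', op_unop l'⟩
  have hlJ' : l ∈ J := hlJ
  have hl1' : ‖l‖ ≤ C2 := hl1
  have hl2' : ∀ x ∈ F, ‖l * x - x‖ < ε / (C1 + C2 + 2) := by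
    intro x hx
    have := hl2 (op x) (Finset.mem_image_of_mem _ hx)
    exact this
  have hsmall : ∀ s c : ℝ, 0 ≤ s → s < ε / (C1 + C2 + 2) → c ≤ C1 + C2 → s + s * c < ε := by
    intro s c hs hs2 hc
    rw [lt_div_iff₀ (by positivity)] at hs2
    nlinarith
  refine ⟨r + l - r * l, J.sub_mem (J.add_mem hrJ hlJ') (hJ r l hlJ').1, ?_, fun x hx => ⟨?_, ?_⟩⟩
  · calc ‖r + l - r * l‖ ≤ ‖r + l‖ + ‖r * l‖ := norm_sub_le _ _
      _ ≤ (‖r‖ + ‖l‖) + ‖r‖ * ‖l‖ := add_le_add (norm_add_le _ _) (norm_mul_le _ _)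
      _ ≤ (C1 + C2) + C1 * C2 := by gcongr
      _ = _ := by ring
  · have e : (r + l - r * l) * x - x = (l * x - x) - r * (l * x - x) := by
      simp only [add_mul, sub_mul, mul_sub, mul_assoc]; abel
    rw [e]
    calc ‖(l * x - x) - r * (l * x - x)‖ ≤ ‖l * x - x‖ + ‖r‖ * ‖l * x - x‖ :=
          (norm_sub_le _ _).trans (add_le_add le_rfl (norm_mul_le _ _))
      _ = ‖l * x - x‖ + ‖l * x - x‖ * ‖r‖ := by ring
      _ < ε := hsmall _ _ (norm_nonneg _) (hl2' x hx) (by linarith)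
  · have e : x * (r + l - r * l) - x = (x * r - x) - (x * r - x) * l := by
      simp only [mul_add, sub_mul, mul_sub, mul_assoc]; abel
    rw [e]
    calc ‖(x * r - x) - (x * r - x) * l‖ ≤ ‖x * r - x‖ + ‖x * r - x‖ * ‖l‖ :=
          (norm_sub_le _ _).trans (add_le_add le_rfl (norm_mul_le _ _))
      _ < ε := hsmall _ _ (norm_nonneg _) (hr2 x hx) (by linarith)

end final

end Pool.Agent.Helper629.BAC
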