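import Mathlib

set_option autoImplicit false

open Set Filter

namespace Pool.Agent.Helper629.CCut

universe u

variable {X : Type u}

/-- number of points of `z` with time at most `n`. -/
noncomputable def cnt (t : X → ℕ) (z : Set X) (n : ℕ) : ℕ := {ξ | ξ ∈ z ∧ t ξ ≤ n}.ncard

theorem cnt_mono {t : X → ℕ} {z y : Set X} (hzy : z ⊆ y) {n : ℕ}
    (hf : {ξ | ξ ∈ y ∧ t ξ ≤ n}.Finite) : cnt t z n ≤ cnt t y n :=
  ncard_le_ncard (fun _ h => ⟨hzy h.1, h.2⟩) hf

theorem cnt_insert_le {t : X → ℕ} {z : Set X} {n : ℕ} (ξ : X) :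
    cnt t (insert ξ z) n ≤ cnt t z n + 1 := by
  unfold cnt
  have : {η | η ∈ insert ξ z ∧ t η ≤ n} ⊆ insert ξ {η | η ∈ z ∧ t η ≤ n} := by
    rintro η ⟨h1, h2⟩
    rcases h1 with h1 | h1
    · exact Or.inl h1
    · exact Or.inr ⟨h1, h2⟩
  by_cases hfin : {η | η ∈ z ∧ t η ≤ n}.Finite
  · exact (ncard_le_ncard this (hfin.insert _)).trans (ncard_insert_le _ _)
  · have h3 : {η | η ∈ insert ξ z ∧ t η ≤ n}.Infinite := by
      intro h4
      apply hfin
      exact h4.subset (fun η h => ⟨Or.inr h.1, h.2⟩)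
    rw [h3.ncard]
    omega

theorem cnt_insert_eq {t : X → ℕ} {z : Set X} {n : ℕ} {ξ : X} (hξ : ξ ∉ z) (ht : t ξ ≤ n)
    (hfin : {η | η ∈ z ∧ t η ≤ n}.Finite) :
    cnt t (insert ξ z) n = cnt t z n + 1 := by
  unfold cnt
  have : {η | η ∈ insert ξ z ∧ t η ≤ n} = insert ξ {η | η ∈ z ∧ t η ≤ n} := by
    ext η
    constructor
    · rintro ⟨h1, h2⟩
      rcases h1 with h1 | h1
      · exact Or.inl h1
      · exact Or.inr ⟨h1, h2⟩
    · rintro (h | h)
      · rw [h]; exact ⟨Or.inl rfl, ht⟩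
      · exact ⟨Or.inr h.1, h.2⟩
  rw [this, ncard_insert_of_notMem (fun h => hξ h.1) hfin]

theorem cnt_insert_of_lt {t : X → ℕ} {z : Set X} {n : ℕ} {ξ : X} (ht : n < t ξ) :
    cnt t (insert ξ z) n = cnt t z n := by
  unfold cnt
  congr 1
  ext η
  constructor
  · rintro ⟨h1, h2⟩
    rcases h1 with h1 | h1
    · rw [h1] at h2; omega
    · exact ⟨h1, h2⟩
  · rintro h
    exact ⟨Or.inr h.1, h.2⟩

/-- Interpolation for a finite-to-one time function. -/
theorem interp (t : X → ℕ) (x y : Set X) (hxy : x ⊆ y)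
    (hf : ∀ n, {ξ | ξ ∈ y ∧ t ξ ≤ n}.Finite)
    (hx : ∀ᶠ n in atTop, cnt t x n < n) (hy : ∃ᶠ n in atTop, n < cnt t y n) :
    ∃ z, x ⊆ z ∧ z ⊆ y ∧ (∀ᶠ n in atTop, cnt t z n ≤ n) ∧ (∃ᶠ n in atTop, cnt t z n = n) := by
  obtain ⟨N, hN⟩ := eventually_atTop.1 hx
  -- maximal set between x and y satisfying the constraint from N on
  obtain ⟨z, hxz, hz⟩ : ∃ z, x ⊆ z ∧ Maximal (fun z => z ∈ {z : Set X | z ⊆ y ∧
      ∀ n, N ≤ n → cnt t z n ≤ n}) z := by
    apply zorn_subset_nonempty {z : Set X | z ⊆ y ∧ ∀ n, N ≤ n → cnt t z n ≤ n}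
    · intro c hc hchain hcne
      refine ⟨⋃₀ c, ⟨sUnion_subset fun s hs => (hc hs).1, ?_⟩, fun s hs => subset_sUnion_of_mem hs⟩
      intro n hn
      have hfin : {ξ | ξ ∈ ⋃₀ c ∧ t ξ ≤ n}.Finite :=
        (hf n).subset (fun ξ h => ⟨(sUnion_subset fun s hs => (hc hs).1) h.1, h.2⟩)
      -- a finite subset of the union of a chain lies in one member
      have key : ∃ s ∈ c, {ξ | ξ ∈ ⋃₀ c ∧ t ξ ≤ n} ⊆ s := by
        apply DirectedOn.exists_mem_subset_of_finite_of_subset_sUnion hcne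
          (hchain.directedOn) hfin
        exact fun ξ h => h.1
      obtain ⟨s, hs, hsub⟩ := key
      have h1 : cnt t (⋃₀ c) n ≤ cnt t s n := by
        apply ncard_le_ncard
        · intro ξ h
          exact ⟨hsub h, h.2⟩
        · exact (hf n).subset (fun ξ h => ⟨(hc hs).1 h.1, h.2⟩)
      exact h1.trans ((hc hs).2 n hn)
    · exact ⟨hxy, fun n hn => (hN n hn).le⟩
  obtain ⟨⟨hzy, hzN⟩, hmax⟩ := hz
  by_cases hfreq : ∃ᶠ n in atTop, cnt t z n = n
  · exact ⟨z, hxz, hzy, eventually_atTop.2 ⟨N, hzN⟩, hfreq⟩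
  have hev : ∀ᶠ n in atTop, cnt t z n < n := by
    rw [not_frequently] at hfreq
    filter_upwards [hfreq, eventually_ge_atTop N] with n h1 h2
    exact lt_of_le_of_ne (hzN n h2) h1
  obtain ⟨M, hM⟩ := eventually_atTop.1 hev
  have hdiff : (y \ z).Finite := by
    apply (hf M).subset
    rintro ξ ⟨hξy, hξz⟩
    refine ⟨hξy, ?_⟩
    by_contra hlt
    push Not at hlt
    have : insert ξ z ⊆ z := by
      apply hmax _ (subset_insert _ _)
      refine ⟨insert_subset hξy hzy, ?_⟩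
      intro n hn
      by_cases hn2 : n < t ξ
      · rw [cnt_insert_of_lt hn2]; exact hzN n hn
      · have h3 := hM n (by omega)
        have h4 := cnt_insert_le (t := t) (z := z) (n := n) ξ
        omega
    exact hξz (this (mem_insert _ _))
  -- among the sets between z and y that are eventually below, take a maximal one
  have hfinset : {w : Set X | z ⊆ w ∧ w ⊆ y ∧ ∀ᶠ n in atTop, cnt t w n < n}.Finite := by
    apply Set.Finite.subset (hdiff.finite_subsets.image (fun d => z ∪ d))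
    rintro w ⟨h1, h2, _⟩
    refine ⟨w \ z, ?_, ?_⟩
    · exact sdiff_subset_sdiff_left h2
    · simp [h1]
  obtain ⟨w, hw⟩ := hfinset.exists_maximal ⟨z, Subset.rfl, hzy, hev⟩
  obtain ⟨⟨hzw, hwy, hwev⟩, hwmax⟩ := hw
  have hne : ∃ ξ ∈ y, ξ ∉ w := by
    by_contra hcon
    push Not at hcon
    have : w = y := Subset.antisymm hwy hcon
    rw [this] at hwev
    obtain ⟨n, h1, h2⟩ := (hy.and_eventually hwev).exists
    omega
  obtain ⟨ξ, hξy, hξw⟩ := hne
  have hins : ¬ ∀ᶠ n in atTop, cnt t (insert ξ w) n < n := by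
    intro hcon
    have := hwmax (⟨hzw.trans (subset_insert _ _), insert_subset hξy hwy, hcon⟩ :
      insert ξ w ∈ {w : Set X | z ⊆ w ∧ w ⊆ y ∧ ∀ᶠ n in atTop, cnt t w n < n}) (subset_insert _ _)
    exact hξw (this (mem_insert _ _))
  have hle : ∀ᶠ n in atTop, cnt t (insert ξ w) n ≤ n := by
    filter_upwards [hwev] with n hn
    have := cnt_insert_le (t := t) (z := w) (n := n) ξ
    omega
  refine ⟨insert ξ w, (hxz.trans hzw).trans (subset_insert _ _), insert_subset hξy hwy, hle, ?_⟩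
  rw [not_eventually] at hins
  refine (hins.and_eventually hle).mono ?_
  rintro n ⟨h1, h2⟩
  omega

end Pool.Agent.Helper629.CCut
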