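import Mathlib
import Pool.Agent.Helper629.CrossCutA

set_option autoImplicit false

open Set Filter

namespace Pool.Agent.Helper629.CCut

universe u

variable {X : Type u} [LinearOrder X]

/-- `z` is *big* if there are `f 0 < f 1 < ...` with infinitely many points of `z` between
`f i` and `f (i+1)` (for a well order: the order type of `z` is at least `ω ^ 2`). -/
def Big (z : Set X) : Prop :=
  ∃ f : ℕ → X, StrictMono f ∧ ∀ i, (z ∩ Icc (f i) (f (i + 1))).Infinite

theorem Big.mono {z y : Set X} (hzy : z ⊆ y) (h : Big z) : Big y := by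
  obtain ⟨f, hf, h⟩ := h
  exact ⟨f, hf, fun i => (h i).mono (inter_subset_inter_left _ hzy)⟩

theorem big_of_frequently {z : Set X} {s : ℕ → X} (hs : StrictMono s)
    (h : ∃ᶠ i in atTop, (z ∩ Icc (s i) (s (i + 1))).Infinite) : Big z := by
  obtain ⟨φ, hφ, h⟩ := extraction_of_frequently_atTop h
  refine ⟨fun k => s (φ k), hs.comp hφ, fun k => (h k).mono ?_⟩
  apply inter_subset_inter_right
  apply Icc_subset_Icc_right
  apply hs.monotone
  exact hφ (Nat.lt_succ_self k)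

theorem not_big_union {x d : Set X} (hx : ¬ Big x) (hd : ¬ Big d) : ¬ Big (x ∪ d) := by
  rintro ⟨f, hf, h⟩
  have h1 : ∀ᶠ i in atTop, ¬ (x ∩ Icc (f i) (f (i + 1))).Infinite := by
    rw [← not_frequently]
    exact fun h => hx (big_of_frequently hf h)
  have h2 : ∀ᶠ i in atTop, ¬ (d ∩ Icc (f i) (f (i + 1))).Infinite := by
    rw [← not_frequently]
    exact fun h => hd (big_of_frequently hf h)
  obtain ⟨i, h3, h4⟩ := (h1.and h2).exists
  apply h i
  rw [not_infinite] at h3 h4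
  rw [union_inter_distrib_right]
  exact h3.union h4

/-- the initial segment belonging to the cluster of `ξ` in `y`. -/
def seg (y : Set X) (ξ : X) : Set X := {η | (y ∩ Icc ξ η).Finite}

/-- `r` is a ladder rank on the initial segment `I`. -/
def Lad (I : Set X) (r : X → ℕ) : Prop :=
  (∀ a ∈ I, ∀ b ∈ I, a ≤ b → r a ≤ r b) ∧ ∀ n, ∃ a ∈ I, n < r a

open Classical in
/-- a chosen ladder rank for every `I` that has one. -/
noncomputable def rho (I : Set X) : X → ℕ :=
  if h : ∃ r, Lad I r then h.choose else fun _ => 0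

theorem rho_spec {I : Set X} (h : ∃ r, Lad I r) : Lad I (rho I) := by
  unfold rho
  rw [dif_pos h]
  exact h.choose_spec

/-- the time of `ξ` in `y`. -/
noncomputable def tm (y : Set X) (ξ : X) : ℕ := rho (seg y ξ) ξ

/-- the counting function of `y`. -/
noncomputable def N (y : Set X) (n : ℕ) : ℕ := cnt (tm y) y n

theorem exists_lad {I : Set X} {s : ℕ → X} (hs : StrictMono s) (hsI : ∃ i0, ∀ i, i0 ≤ i → s i ∈ I)
    (hcof : ∀ η ∈ I, ∃ j, η < s j) : ∃ r, Lad I r := by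
  classical
  refine ⟨fun η => if h : ∃ j, η < s j then Nat.find h else 0, ?_, ?_⟩
  · intro a ha b hb hab
    have h1 := hcof a ha
    have h2 := hcof b hb
    simp only [h1, h2, dif_pos]
    apply Nat.find_mono
    intro n hn
    exact lt_of_le_of_lt hab hn
  · intro n
    obtain ⟨i0, hi0⟩ := hsI
    have hm := hi0 (max i0 n) (le_max_left _ _)
    refine ⟨s (max i0 n), hm, ?_⟩
    have h1 := hcof _ hm
    simp only [h1, dif_pos]
    have h2 := Nat.find_spec h1
    have h3 := hs.lt_iff_lt.1 h2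
    exact lt_of_le_of_lt (le_max_right _ _) h3

/-- tail lemma: along an increasing sequence, a set that is not big has finite blocks. -/
theorem tail {y : Set X} (hy : ¬ Big y) {s : ℕ → X} (hs : StrictMono s) :
    ∃ i0, ∀ i j, i0 ≤ i → (y ∩ Icc (s i) (s j)).Finite := by
  have h1 : ∀ᶠ i in atTop, ¬ (y ∩ Icc (s i) (s (i + 1))).Infinite := by
    rw [← not_frequently]
    exact fun h => hy (big_of_frequently hs h)
  obtain ⟨i0, hi0⟩ := eventually_atTop.1 h1
  refine ⟨i0, fun i j hi => ?_⟩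
  rcases le_total j i with hji | hij
  · apply ((finite_singleton (s i))).subset
    rintro η ⟨_, h2, h3⟩
    exact le_antisymm (h3.trans (hs.monotone hji)) h2
  · obtain ⟨k, rfl⟩ := Nat.exists_eq_add_of_le hij
    induction k with
    | zero =>
      apply ((finite_singleton (s i))).subset
      rintro η ⟨_, h2, h3⟩
      exact le_antisymm h3 h2
    | succ k ih =>
      have h2 := hi0 (i + k) (by omega)
      rw [not_infinite] at h2
      apply ((ih (by omega)).union h2).subset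
      rintro η ⟨h3, h4, h5⟩
      rcases le_total η (s (i + k)) with h6 | h6
      · exact Or.inl ⟨h3, h4, h6⟩
      · exact Or.inr ⟨h3, h6, h5⟩

/-- the common initial segment of the tail of an increasing sequence of points of `y`. -/
theorem seg_tail {y : Set X} {s : ℕ → X} (hs : StrictMono s) {i0 : ℕ}
    (h : ∀ i j, i0 ≤ i → (y ∩ Icc (s i) (s j)).Finite) {i : ℕ} (hi : i0 ≤ i) :
    seg y (s i) = seg y (s i0) := by
  ext η
  constructor
  · intro h1
    apply ((h i0 i le_rfl).union h1).subset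
    rintro ζ ⟨h3, h4, h5⟩
    rcases le_total ζ (s i) with h6 | h6
    · exact Or.inl ⟨h3, h4, h6⟩
    · exact Or.inr ⟨h3, h6, h5⟩
  · intro h1
    apply Set.Finite.subset h1
    rintro ζ ⟨h3, h4, h5⟩
    exact ⟨h3, (hs.monotone hi).trans h4, h5⟩

/-- if the points of the sequence belong to `w`, then beyond the segment `w` is infinite. -/
theorem lt_of_mem_seg {w : Set X} {s : ℕ → X} (hs : StrictMono s) (hsw : ∀ i, s i ∈ w) {i : ℕ}
    {η : X} (h : η ∈ seg w (s i)) : ∃ j, η < s j := by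
  by_contra hcon
  push Not at hcon
  have h1 : (s '' Ici i) ⊆ w ∩ Icc (s i) η := by
    rintro _ ⟨j, hj, rfl⟩
    exact ⟨hsw j, hs.monotone hj, hcon j⟩
  have h2 : (s '' Ici i).Infinite := (Set.Ici_infinite i).image (hs.injective.injOn)
  exact h2 (Set.Finite.subset h h1)

theorem exists_seq [WellFoundedLT X] {S : Set X} (hS : S.Infinite) :
    ∃ s : ℕ → X, StrictMono s ∧ ∀ i, s i ∈ S := by
  have e := hS.natEmbedding
  obtain ⟨g, hg⟩ := exists_increasing_or_nonincreasing_subseq (fun a b : X => a < b)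
    (fun n => ((e n : S) : X))
  rcases hg with hg | hg
  · exact ⟨fun n => e (g n), fun m n hmn => hg m n hmn, fun i => (e (g i)).2⟩
  · exfalso
    have hdec : ∀ m n, m < n → ((e (g n) : S) : X) < e (g m) := by
      intro m n hmn
      have h1 := hg m n hmn
      rw [not_lt] at h1
      refine lt_of_le_of_ne h1 ?_
      intro h2
      have h3 := e.injective (Subtype.ext h2)
      have h4 := g.injective h3
      omega
    have hwf : WellFounded (fun a b : X => a < b) := wellFounded_lt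
    exact (RelEmbedding.natGT (fun n => ((e (g n) : S) : X)) (fun n => hdec n (n + 1)
      (Nat.lt_succ_self n))).not_wellFounded hwf

theorem finite_tm [WellFoundedLT X] {y : Set X} (hy : ¬ Big y) (n : ℕ) :
    {ξ | ξ ∈ y ∧ tm y ξ ≤ n}.Finite := by
  by_contra hinf
  obtain ⟨s, hs, hsS⟩ := exists_seq (S := {ξ | ξ ∈ y ∧ tm y ξ ≤ n}) hinf
  obtain ⟨i0, hi0⟩ := tail hy hs
  have hlad : ∃ r, Lad (seg y (s i0)) r := by
    apply exists_lad hs ⟨i0, fun i hi => hi0 i0 i le_rfl⟩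
    intro η hη
    exact lt_of_mem_seg hs (fun i => (hsS i).1) hη
  obtain ⟨hmono, hunb⟩ := rho_spec hlad
  obtain ⟨a, ha, hna⟩ := hunb n
  obtain ⟨j, hj⟩ := lt_of_mem_seg hs (fun i => (hsS i).1) ha
  have hj2 : a ≤ s (max i0 j) := hj.le.trans (hs.monotone (le_max_right _ _))
  have h1 := hmono a ha (s (max i0 j)) (hi0 i0 _ le_rfl) hj2
  have h2 := (hsS (max i0 j)).2
  unfold tm at h2
  rw [seg_tail hs hi0 (le_max_left i0 j)] at h2
  omega

theorem coherent [WellFoundedLT X] {z y : Set X} (hzy : z ⊆ y) (hy : ¬ Big y) :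
    {ξ | ξ ∈ z ∧ seg z ξ ≠ seg y ξ}.Finite := by
  by_contra hinf
  obtain ⟨s, hs, hsS⟩ := exists_seq (S := {ξ | ξ ∈ z ∧ seg z ξ ≠ seg y ξ}) hinf
  obtain ⟨i0, hi0⟩ := tail hy hs
  apply (hsS i0).2
  apply Subset.antisymm
  · intro η hη
    obtain ⟨j, hj⟩ := lt_of_mem_seg hs (fun i => (hsS i).1) hη
    apply (hi0 i0 j le_rfl).subset
    rintro ζ ⟨h1, h2, h3⟩
    exact ⟨h1, h2, h3.trans hj.le⟩
  · intro η hη
    exact Set.Finite.subset hη (inter_subset_inter_left _ hzy)

theorem N_eq [WellFoundedLT X] {z y : Set X} (hzy : z ⊆ y) (hy : ¬ Big y) :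
    ∀ᶠ n in atTop, N z n = cnt (tm y) z n := by
  have hE : {ξ | ξ ∈ z ∧ tm z ξ ≠ tm y ξ}.Finite := by
    apply (coherent hzy hy).subset
    rintro ξ ⟨h1, h2⟩
    refine ⟨h1, fun h3 => h2 ?_⟩
    unfold tm
    rw [h3]
  obtain ⟨M, hM⟩ : ∃ M, ∀ ξ ∈ {ξ | ξ ∈ z ∧ tm z ξ ≠ tm y ξ}, tm z ξ ≤ M ∧ tm y ξ ≤ M := by
    obtain ⟨M1, h1⟩ := (hE.image (tm z)).bddAbove
    obtain ⟨M2, h2⟩ := (hE.image (tm y)).bddAbove
    exact ⟨max M1 M2, fun ξ hξ => ⟨(h1 (mem_image_of_mem _ hξ)).trans (le_max_left _ _),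
      (h2 (mem_image_of_mem _ hξ)).trans (le_max_right _ _)⟩⟩
  filter_upwards [eventually_ge_atTop M] with n hn
  unfold N cnt
  congr 1
  ext ξ
  constructor
  · rintro ⟨h1, h2⟩
    refine ⟨h1, ?_⟩
    by_cases h3 : tm z ξ = tm y ξ
    · rwa [← h3]
    · exact (hM ξ ⟨h1, h3⟩).2.trans hn
  · rintro ⟨h1, h2⟩
    refine ⟨h1, ?_⟩
    by_cases h3 : tm z ξ = tm y ξ
    · rwa [h3]
    · exact (hM ξ ⟨h1, h3⟩).1.trans hn

theorem N_lt [WellFoundedLT X] {z y : Set X} (hzy : z ⊂ y) (hy : ¬ Big y) :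
    ∀ᶠ n in atTop, N z n < N y n := by
  obtain ⟨ξ, hξy, hξz⟩ := exists_of_ssubset hzy
  filter_upwards [N_eq hzy.subset hy, eventually_ge_atTop (tm y ξ)] with n h1 h2
  rw [h1]
  have hfin : {η | η ∈ z ∧ tm y η ≤ n}.Finite :=
    (finite_tm hy n).subset fun η h => ⟨hzy.subset h.1, h.2⟩
  have h3 := cnt_insert_eq hξz h2 hfin
  have h4 : cnt (tm y) (insert ξ z) n ≤ cnt (tm y) y n :=
    cnt_mono (insert_subset hξy hzy.subset) (finite_tm hy n)
  unfold N
  omega

theorem N_le [WellFoundedLT X] {z y : Set X} (hzy : z ⊆ y) (hy : ¬ Big y) :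
    ∀ᶠ n in atTop, N z n ≤ N y n := by
  filter_upwards [N_eq hzy hy] with n h1
  rw [h1]
  exact cnt_mono hzy (finite_tm hy n)

/-- every big set contains a set that is not big and has a large counting function. -/
theorem diag [WellFoundedLT X] {y : Set X} (hy : Big y) :
    ∃ d ⊆ y, ¬ Big d ∧ ∃ᶠ n in atTop, n < N d n := by
  obtain ⟨f, hf, hblock⟩ := hy
  set I : Set X := {η | ∃ i, η < f i} with hI
  have hfI : ∀ i, f i ∈ I := fun i => ⟨i + 1, hf (Nat.lt_succ_self i)⟩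
  have hlad : ∃ r, Lad I r := exists_lad hf ⟨0, fun i _ => hfI i⟩ (fun η hη => hη)
  obtain ⟨hmono, hunb⟩ := rho_spec hlad
  -- choose finite pieces
  have hpiece : ∀ i, ∃ D : Finset X, (D : Set X) ⊆ y ∩ Icc (f i) (f (i + 1)) ∧
      D.card = rho I (f (i + 1)) + 1 := fun i => (hblock i).exists_subset_card_eq _
  choose D hD hcard using hpiece
  set d : Set X := ⋃ i, (D i : Set X) with hd
  have hdy : d ⊆ y := iUnion_subset fun i => (hD i).trans inter_subset_left
  have hdfin : ∀ i, (d ∩ Iio (f i)).Finite := by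
    intro i
    apply (Set.Finite.biUnion (finite_lt_nat i) (fun j _ => (D j).finite_toSet)).subset
    rintro η ⟨h1, h2⟩
    obtain ⟨j, hj⟩ := mem_iUnion.1 h1
    refine mem_biUnion (x := j) ?_ hj
    by_contra hlt
    have hlt : i ≤ j := not_lt.1 hlt
    have h3 := (hD j hj).2.1
    exact absurd (lt_of_lt_of_le h2 (hf.monotone hlt)) (not_lt.2 h3)
  have hdI : d ⊆ I := by
    intro η hη
    obtain ⟨j, hj⟩ := mem_iUnion.1 hη
    exact ⟨j + 2, lt_of_le_of_lt (hD j hj).2.2 (hf (Nat.lt_succ_self (j + 1)))⟩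
  have hdinf : ∀ ξ ∈ I, (d ∩ Ici ξ).Infinite := by
    intro ξ hξ hfin
    obtain ⟨i, hi⟩ := hξ
    -- points of d in Ici (f i) are unbounded
    have hne : ∀ j, ∃ η ∈ d, f j ≤ η := by
      intro j
      have : (D j).Nonempty := by
        rw [← Finset.card_pos, hcard]; omega
      obtain ⟨η, hη⟩ := this
      exact ⟨η, mem_iUnion.2 ⟨j, hη⟩, (hD j hη).2.1⟩
    obtain ⟨b, hb⟩ : ∃ b, ∀ η ∈ d ∩ Ici ξ, η < f b := by
      have h1 : ∀ η ∈ d ∩ Ici ξ, ∃ b, η < f b := fun η hη => hdI hη.1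
      choose! b hb using h1
      obtain ⟨M, hM⟩ := (hfin.image b).bddAbove
      exact ⟨M, fun η hη => lt_of_lt_of_le (hb η hη) (hf.monotone (hM (mem_image_of_mem _ hη)))⟩
    obtain ⟨η, hη, hle⟩ := hne (max i b)
    have h1 : ξ ≤ η := hi.le.trans ((hf.monotone (le_max_left _ _)).trans hle)
    have h2 := hb η ⟨hη, h1⟩
    exact absurd (lt_of_lt_of_le h2 (hf.monotone (le_max_right i b))) (not_lt.2 hle)
  have hnb : ¬ Big d := by
    rintro ⟨g, hg, hgd⟩
    by_cases h1 : g 1 ∈ I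
    · obtain ⟨i, hi⟩ := h1
      apply hgd 0
      apply (hdfin i).subset
      rintro η ⟨h2, _, h3⟩
      exact ⟨h2, lt_of_le_of_lt h3 hi⟩
    · apply hgd 1
      apply finite_empty.subset
      rintro η ⟨h2, h3, _⟩
      obtain ⟨i, hi⟩ := hdI h2
      exact h1 ⟨i, lt_of_le_of_lt h3 hi⟩
  have hseg : ∀ ξ ∈ d, seg d ξ = I := by
    intro ξ hξ
    ext η
    constructor
    · intro h1
      by_contra h2
      have h3 : ∀ i, f i ≤ η := by
        intro i
        by_contra h4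
        exact h2 ⟨i, not_le.1 h4⟩
      apply hdinf ξ (hdI hξ)
      apply Set.Finite.subset h1
      rintro ζ ⟨h4, h5⟩
      obtain ⟨i, hi⟩ := hdI h4
      exact ⟨h4, h5, hi.le.trans (h3 i)⟩
    · rintro ⟨i, hi⟩
      apply (hdfin i).subset
      rintro ζ ⟨h4, h5, h6⟩
      exact ⟨h4, lt_of_le_of_lt h6 hi⟩
  refine ⟨d, hdy, hnb, ?_⟩
  rw [frequently_atTop]
  intro n
  obtain ⟨a, ha, hna⟩ := hunb n
  obtain ⟨i, hi⟩ := ha
  have hia : n ≤ rho I (f (i + 1)) := by
    have h1 := hmono a ⟨i, hi⟩ (f (i + 1)) (hfI _) (hi.le.trans (hf (Nat.lt_succ_self i)).le)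
    omega
  refine ⟨rho I (f (i + 1)), hia, ?_⟩
  have hsub : ((D i : Finset X) : Set X) ⊆ {ξ | ξ ∈ d ∧ tm d ξ ≤ rho I (f (i + 1))} := by
    intro ξ hξ
    have h1 : ξ ∈ d := mem_iUnion.2 ⟨i, hξ⟩
    refine ⟨h1, ?_⟩
    unfold tm
    rw [hseg ξ h1]
    exact hmono ξ (hdI h1) (f (i + 1)) (hfI _) (hD i hξ).2.2
  have h2 := ncard_le_ncard hsub (finite_tm hnb _)
  rw [ncard_coe_finset, hcard] at h2
  unfold N cnt
  omega

end Pool.Agent.Helper629.CCut
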